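import Mathlib
/-! Definitions for the eye of a standard map (problem MP_be9500_an). -/
set_option autoImplicit false
open Real Set MeasureTheory Filter
namespace Pool.Agent.LibEye

instance factTwoPi : Fact (0 < 2 * π) := ⟨by positivity⟩

/-- the circle ℝ/2πℤ -/
abbrev Circ := AddCircle (2 * π)

/-- the torus 𝕋² -/
abbrev Torus := Circ × Circ

/-- the representative of a point of the circle in [-π, π) -/
noncomputable def rep (x : Circ) : ℝ := (AddCircle.equivIco (2 * π) (-π) x : ℝ)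

/-- the lift to the plane: (x, y) ↦ (F x - y, x) -/
def liftMap (F : ℝ → ℝ) (p : ℝ × ℝ) : ℝ × ℝ := (F p.1 - p.2, p.1)

/-- the map of the torus induced by `liftMap F` if F(x+2π) - F(x) is an integer multiple of 2π -/
noncomputable def tmap (F : ℝ → ℝ) (p : Torus) : Torus := (((F (rep p.1) : ℝ) : Circ) - p.2, p.1)

/-- the pointwise Lyapunov exponent, limsup of (1/n) log of the norm of the derivative of the n-th iterate -/
noncomputable def chi (F : ℝ → ℝ) (p : ℝ × ℝ) : EReal :=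
  limsup (fun n : ℕ => ((Real.log ‖fderiv ℝ ((liftMap F)^[n]) p‖ / n : ℝ) : EReal)) atTop

/-- All hypotheses on F and the link u. -/
structure EyeHyp (F u : ℝ → ℝ) (d : ℤ) (a b κ : ℝ) : Prop where
  ha : 0 < a
  hab : a < b
  hκ : 1 < κ
  hF : ContDiff ℝ 1 F
  hodd : ∀ x, F (-x) = -F x
  hper : ∀ x, F (x + 2 * π) = F x + 2 * π * d
  hFa : F a = 2 * a
  hdFab : ∀ x ∈ Ioc a b, κ + 1 / κ < deriv F x
  hout : ∀ x ∈ Icc b π, 2 * κ < deriv F x
  hwrap : F b + 2 * b < 2 * π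
  hcu : Continuous u
  hu : ∀ x ∈ Ioo (-a) a, DifferentiableAt ℝ u x
  hanti : StrictAntiOn (deriv u) (Ioo (-a) a)
  hlow : ∀ x ∈ Ioo (-a) a, 1 / κ < deriv u x
  hua : u a = a
  hua' : u (-a) = -a
  hinv : ∀ x ∈ Ioo (-a) a, u (-u x) = -x
  hup : ∀ x ∈ Ioo (-a) a, x < u x
  hFu : ∀ x ∈ Ioo (-a) a, F x = u x - u (-x)

/-- sequences of representatives of orbits: s 0 = y, s 1 = x, s 2 = F x - y (mod 2π), ... -/
structure Orb (F : ℝ → ℝ) (s : ℕ → ℝ) : Prop where
  rng : ∀ n, s n ∈ Ico (-π) π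
  step : ∀ n, ∃ k : ℤ, s (n + 2) = F (s (n + 1)) - s n + 2 * π * k

/-- the cone field, (y, x) = (x_(n-1), x_n) -/
noncomputable def sg (F u : ℝ → ℝ) (a b κ : ℝ) (y x : ℝ) : ℝ :=
  if b < |y| then deriv F y / 2
  else if b < |x| then 1 / κ
  else if a < y then (if x ≤ y then κ else deriv F y - κ)
  else if y < -a then (if y ≤ x then κ else deriv F y - κ)
  else if u y < x then deriv u y else deriv u (-y)

/-- the closed eye, in coordinates (y, x) -/
def EE (u : ℝ → ℝ) (a : ℝ) (y x : ℝ) : Prop := |y| ≤ a ∧ -u (-y) ≤ x ∧ x ≤ u y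

/-- the open eye on the torus -/
def eye (u : ℝ → ℝ) (a : ℝ) : Set Torus :=
  {p | rep p.2 ∈ Ioo (-a) a ∧ -u (-rep p.2) < rep p.1 ∧ rep p.1 < u (rep p.2)}

/-- the gain β along one step -/
noncomputable def bet (F u : ℝ → ℝ) (a b κ : ℝ) (p : Torus) : ℝ :=
  (deriv F (rep p.1) - sg F u a b κ (rep p.1) (rep (tmap F p).1)) * sg F u a b κ (rep p.2) (rep p.1) - 1

/-- the truncated logarithmic gain (0 if β ≤ 0) -/
noncomputable def phi (F u : ℝ → ℝ) (a b κ : ℝ) (p : Torus) : ℝ :=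
  min (Real.log (1 + 2 * max (bet F u a b κ p) 0)) 1

/-- the points of the torus whose forward orbit never has a coordinate ±a and never enters the closed eye -/
def Good (F u : ℝ → ℝ) (a : ℝ) : Set Torus :=
  {p | |rep p.2| ≠ a ∧ (∀ n, |rep ((tmap F)^[n] p).1| ≠ a) ∧
    ∀ n, ¬ EE u a (rep ((tmap F)^[n] p).2) (rep ((tmap F)^[n] p).1)}

end Pool.Agent.LibEye
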