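import Pool.Agent.LibEye.Neg
/-! The theorem for standard maps from `EyeHyp`. -/
set_option autoImplicit false
open Real Set MeasureTheory Filter Topology
namespace Pool.Agent.LibEye
variable {F u : ℝ → ℝ} {d : ℤ} {a b κ : ℝ}

/-- An analytic periodic g such that the Standard map with potential E x + g(x) has an open invariant set D
which contains the elliptic fixed point 0, the complement of D has positive measure, almost every point
outside D has a positive exponent, and (if `z` holds) the exponent is 0 on a subset of D of positive measure. -/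
def Coex (z : Prop) (E : ℤ) : Prop :=
  ∃ g : ℝ → ℝ, AnalyticOnNhd ℝ g univ ∧ Function.Periodic g (2 * π) ∧
    stdMap E g 0 = 0 ∧ |2 + E + deriv g 0| < 2 ∧
    ∃ D : Set Torus, IsOpen D ∧ stdMap E g ⁻¹' D = D ∧ (0 : Torus) ∈ D ∧ 0 < volume Dᶜ ∧
      (∀ᵐ p : Torus, p ∉ D → 0 < lyap E g p) ∧
      (z → 0 < volume {p : Torus | p ∈ D ∧ lyap E g p = 0})

theorem coex_of (H : EyeHyp F u d a b κ) (hA : AnalyticOnNhd ℝ F univ) (hell : |deriv F 0| < 2)
    {z : Prop} (hz : z → 0 < volume {p : Torus | p ∈ eye u a ∧ chi F (rep p.1, rep p.2) = 0}) :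
    Coex z (d - 2) := by
  have hfun : (fun x : ℝ => 2 * x + (((d - 2 : ℤ) : ℝ) * x + (F x - d * x))) = F := by
    funext x; push_cast; ring
  have hdF : DifferentiableAt ℝ F 0 := H.hF.differentiable (by norm_num) 0
  refine ⟨fun x => F x - d * x, ?_, fun x => ?_, ?_, ?_, eye u a, eye_open H, ?_, (eye_zero H).1,
    eye_compl H, ?_, ?_⟩
  · exact hA.sub (analyticOnNhd_const.mul analyticOnNhd_id)
  · simp only [H.hper x]; ring
  · rw [stdMap_eq, hfun]; exact (eye_zero H).2
  · have e : deriv (fun x : ℝ => F x - d * x) 0 = deriv F 0 - d := by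
      have h1 : HasDerivAt (fun x : ℝ => F x - d * x) (deriv F 0 - d * 1) 0 :=
        hdF.hasDerivAt.sub ((hasDerivAt_id (0 : ℝ)).const_mul (d : ℝ))
      rw [h1.deriv, mul_one]
    rw [e]; push_cast
    have e2 : (2 : ℝ) + (d - 2) + (deriv F 0 - d) = deriv F 0 := by ring
    rw [e2]; exact hell
  · rw [stdMap_eq, hfun]; exact eye_inv H
  · filter_upwards [main_b H] with p hp hpe
    rw [lyap_eq, hfun]; exact hp hpe
  · intro h
    have := hz h
    simpa only [lyap_eq, hfun] using this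

theorem coex_neg_of (H : EyeHyp F u d a b κ) (hA : AnalyticOnNhd ℝ F univ)
    (hell : |deriv F 0| < 2) {z : Prop}
    (hz : z → 0 < volume {p : Torus | p ∈ eye u a ∧ chi F (rep p.1, rep p.2) = 0}) :
    Coex z (-d - 2) := by
  have hfun : (fun x : ℝ => 2 * x + (((-d - 2 : ℤ) : ℝ) * x + (-F x + d * x))) =
      fun x => -F x := by
    funext x; push_cast; ring
  have hdF : DifferentiableAt ℝ F 0 := H.hF.differentiable (by norm_num) 0
  obtain ⟨n1, n2, n3, n4, n5, n6, n7⟩ := neg_all H
  refine ⟨fun x => -F x + d * x, ?_, fun x => ?_, ?_, ?_, sT ⁻¹' eye u a, n1, ?_, n3, n5, ?_, ?_⟩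
  · exact hA.neg.add (analyticOnNhd_const.mul analyticOnNhd_id)
  · simp only [H.hper x]; ring
  · rw [stdMap_eq, hfun]; exact n4
  · have e : deriv (fun x : ℝ => -F x + d * x) 0 = -deriv F 0 + d := by
      have h1 : HasDerivAt (fun x : ℝ => -F x + d * x) (-deriv F 0 + d * 1) 0 :=
        hdF.hasDerivAt.neg.add ((hasDerivAt_id (0 : ℝ)).const_mul (d : ℝ))
      rw [h1.deriv, mul_one]
    rw [e]; push_cast
    have e2 : (2 : ℝ) + (-d - 2) + (-deriv F 0 + d) = -deriv F 0 := by ring
    rw [e2, abs_neg]; exact hell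
  · rw [stdMap_eq, hfun]; exact n2
  · filter_upwards [n6] with p hp hpe
    rw [lyap_eq, hfun]; exact hp hpe
  · intro h
    have := n7 (hz h)
    simpa only [lyap_eq, hfun] using this

/-- all integers E outside [-4, 0], if for every N ≥ 1 there is a map with `EyeHyp` of degree N + 2 -/
theorem coex_all {z : Prop}
    (h : ∀ N : ℕ, 1 ≤ N → ∃ (F u : ℝ → ℝ) (a b κ : ℝ), EyeHyp F u ((N : ℤ) + 2) a b κ ∧
      AnalyticOnNhd ℝ F univ ∧ |deriv F 0| < 2 ∧
      (z → 0 < volume {p : Torus | p ∈ eye u a ∧ chi F (rep p.1, rep p.2) = 0}))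
    (E : ℤ) (hE : 0 < E ∨ E < -4) : Coex z E := by
  rcases hE with hE | hE
  · obtain ⟨F, u, a, b, κ, H, hA, he, hz⟩ := h E.toNat (by omega)
    have := coex_of H hA he hz
    have e : ((E.toNat : ℤ) + 2) - 2 = E := by omega
    rwa [e] at this
  · obtain ⟨F, u, a, b, κ, H, hA, he, hz⟩ := h (-E - 4).toNat (by omega)
    have := coex_neg_of H hA he hz
    have e : -(((-E - 4).toNat : ℤ) + 2) - 2 = E := by omega
    rwa [e] at this

end Pool.Agent.LibEye
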