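import Pool.Agent.LibEye.Link
/-! Row C03: the eye is invariant.
PLAN. ee_abs: x ≤ u y ≤ a, x ≥ -u (-y) ≥ -a (u_maps_icc). ee_fwd: F x = u x - u (-x) (F_icc). -u (-x) ≤ F x - y iff y ≤ u x:
from x ≥ -u (-y), u monotone (u_strict), u (-u (-y)) = y (inv_icc at -y). F x - y ≤ u x iff -u (-x) ≤ y: from x ≤ u y,
-x ≥ -u y, u (-x) ≥ u (-u y) = -y. ee_bwd: same computation backwards. eo_fwd, eo_bwd: strict versions. -/
set_option autoImplicit false
open Real Set
namespace Pool.Agent.LibEye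
variable {F u : ℝ → ℝ} {d : ℤ} {a b κ : ℝ}

private theorem C03_neg {a x : ℝ} (hx : x ∈ Icc (-a) a) : -x ∈ Icc (-a) a :=
  ⟨by linarith [hx.2], by linarith [hx.1]⟩

private theorem C03_le (H : EyeHyp F u d a b κ) {s t : ℝ} (hs : s ∈ Icc (-a) a)
    (ht : t ∈ Icc (-a) a) (h : s ≤ t) : u s ≤ u t := (u_strict H).monotoneOn hs ht h

private theorem C03_inv (H : EyeHyp F u d a b κ) {y : ℝ} (hy : y ∈ Icc (-a) a) :
    u (-u (-y)) = y := by
  rw [inv_icc H (C03_neg hy), neg_neg]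

theorem ee_abs (H : EyeHyp F u d a b κ) {y x : ℝ} (hE : EE u a y x) : |x| ≤ a := by
  obtain ⟨h1, h2, h3⟩ := hE
  have hy : y ∈ Icc (-a) a := abs_le.1 h1
  have h4 := u_maps_icc H hy
  have h5 := u_maps_icc H (C03_neg hy)
  exact abs_le.2 ⟨by linarith [h5.2], by linarith [h4.2]⟩

theorem ee_fwd (H : EyeHyp F u d a b κ) {y x : ℝ} (hE : EE u a y x) : EE u a x (F x - y) := by
  have hx' := ee_abs H hE
  obtain ⟨h1, h2, h3⟩ := hE
  have hy : y ∈ Icc (-a) a := abs_le.1 h1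
  have hx : x ∈ Icc (-a) a := abs_le.1 hx'
  have h4 := C03_le H (C03_neg (u_maps_icc H (C03_neg hy))) hx h2
  rw [C03_inv H hy] at h4
  have h5 := C03_le H (C03_neg (u_maps_icc H hy)) (C03_neg hx) (neg_le_neg h3)
  rw [inv_icc H hy] at h5
  have h6 := F_icc H hx
  exact ⟨hx', by linarith, by linarith⟩

theorem ee_bwd (H : EyeHyp F u d a b κ) {x x' : ℝ} (hE : EE u a x x') : EE u a (F x - x') x := by
  obtain ⟨h1, h2, h3⟩ := hE
  have hx : x ∈ Icc (-a) a := abs_le.1 h1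
  have h4 := u_maps_icc H hx
  have h5 := u_maps_icc H (C03_neg hx)
  have h6 := F_icc H hx
  have hy : F x - x' ∈ Icc (-a) a := ⟨by linarith [h5.2], by linarith [h4.2]⟩
  have h7 := C03_le H (C03_neg h4) (C03_neg hy) (show -u x ≤ -(F x - x') by linarith)
  rw [inv_icc H hx] at h7
  have h8 := C03_le H (C03_neg h5) hy (show -u (-x) ≤ F x - x' by linarith)
  rw [C03_inv H hx] at h8
  exact ⟨abs_le.2 hy, by linarith, h8⟩

theorem eo_fwd (H : EyeHyp F u d a b κ) {y x : ℝ} (hy : y ∈ Ioo (-a) a)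
    (h1 : -u (-y) < x) (h2 : x < u y) :
    x ∈ Ioo (-a) a ∧ -u (-x) < F x - y ∧ F x - y < u x := by
  have hyi : y ∈ Icc (-a) a := Ioo_subset_Icc_self hy
  have hny : -y ∈ Ioo (-a) a := ⟨by linarith [hy.2], by linarith [hy.1]⟩
  have h3 := u_maps H hy
  have h4 := u_maps H hny
  have hx : x ∈ Ioo (-a) a := ⟨by linarith [h4.2], by linarith [h3.2]⟩
  have hxi : x ∈ Icc (-a) a := Ioo_subset_Icc_self hx
  have h5 := u_strict H (C03_neg (Ioo_subset_Icc_self h4)) hxi h1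
  rw [C03_inv H hyi] at h5
  have h6 := u_strict H (C03_neg (Ioo_subset_Icc_self h3)) (C03_neg hxi) (neg_lt_neg h2)
  rw [inv_icc H hyi] at h6
  have h7 := F_icc H hxi
  exact ⟨hx, by linarith, by linarith⟩

theorem eo_bwd (H : EyeHyp F u d a b κ) {x x' : ℝ} (hx : x ∈ Ioo (-a) a)
    (h1 : -u (-x) < x') (h2 : x' < u x) :
    F x - x' ∈ Ioo (-a) a ∧ -u (-(F x - x')) < x ∧ x < u (F x - x') := by
  have hxi : x ∈ Icc (-a) a := Ioo_subset_Icc_self hx
  have hnx : -x ∈ Ioo (-a) a := ⟨by linarith [hx.2], by linarith [hx.1]⟩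
  have h3 := u_maps H hx
  have h4 := u_maps H hnx
  have h5 := F_icc H hxi
  have hy : F x - x' ∈ Ioo (-a) a := ⟨by linarith [h4.2], by linarith [h3.2]⟩
  have hyi : F x - x' ∈ Icc (-a) a := Ioo_subset_Icc_self hy
  have h6 := u_strict H (C03_neg (Ioo_subset_Icc_self h3)) (C03_neg hyi)
    (show -u x < -(F x - x') by linarith)
  rw [inv_icc H hxi] at h6
  have h7 := u_strict H (C03_neg (Ioo_subset_Icc_self h4)) hyi
    (show -u (-x) < F x - x' by linarith)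
  rw [C03_inv H hxi] at h7
  exact ⟨hy, by linarith, h7⟩

end Pool.Agent.LibEye
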