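import Pool.Agent.LibEye.Outer
import Pool.Agent.LibEye.Closed
/-! Row C04: the cone inequality (*), 1/sg(y,x) + sg(x,x') < F' x outside the closed eye.
(y, x, x') consecutive representatives. PLAN. sg_pos: all cases: F' y/2 > κ, 1/κ, κ, F' y - κ > 1/κ, deriv u > 1/κ.
sg_neg (symmetry outside the closed eye): sg (-y) (-x) = sg y x; for |y| < a exactly one of u y < x and x < -u (-y) holds;
deriv F even. star_aux: the case a < x or (|x| < a and u y < x with |y| < a) or ... Suggested order:
(A) b < |x|: sg x x' = F' x/2 and 1/sg y x ≤ κ (sg y x = 1/κ if |y| ≤ b, > κ if b < |y|); F' x > 2κ.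
(B) |x| ≤ b < |y|: 1/sg y x < 1/κ (dF_out at y), and sg x x' + 1/κ ≤ F' x in all cases (|x'| > b: 2/κ ≤ F' x, from dF_gt or dF_in,
hlow; a < |x|: κ + 1/κ < F' x, resp. F' x - κ + 1/κ < F' x; |x| < a: deriv u (±x) + 1/κ < deriv u x + deriv u (-x)).
(C) |x|, |y| ≤ b; x' ≡ F x - y (nowrap: x' = F x - y or both outside [-b, b]).
(C1) a < x: if b < |x'|: sg x x' = 1/κ and 1/sg y x ≤ κ (y > a: sg = κ or F' y - κ > 1/κ; y < -a: sg = κ as y ≤ x; |y| < a: u y < a < x
so sg = deriv u y > 1/κ). If x < x': sg x x' = F' x - κ, need 1/sg y x < κ: same list. If x' ≤ x: y = F x - x' ≥ F x - x > x (two_lt),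
so sg y x = κ, sg x x' = κ, κ + 1/κ < F' x. (C2) x < -a: apply (C1) to (-y, -x, -x') with sg_neg (x' mapped to -x': the relation
e holds with -k; the range [-π, π) is only needed through nowrap: state the auxiliary lemma with the conclusion of nowrap as
hypothesis instead of hx', e). (C3) |x| < a: F' x = deriv u x + deriv u (-x). a < y: sg y x = κ, x' = F x - y < -u (-x) < u x, so sg x x' =
deriv u (-x) or 1/κ; 1/κ < deriv u x. y < -a: sg y x = κ, F x - y > u x, sg x x' = deriv u x or 1/κ. |y| < a and u y < x: sg y x = deriv u y,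
1/deriv u y = deriv u (-u y) < deriv u (-x) (du_inv; -x < -u y, hanti), F x - y > u x (-u (-x) > y because u (-x) < u (-u y) = -y),
sg x x' = deriv u x or 1/κ. |y| < a and x < -u (-y): mirror (sg_neg). -/
set_option autoImplicit false
open Real Set
namespace Pool.Agent.LibEye
variable {F u : ℝ → ℝ} {d : ℤ} {a b κ : ℝ}

private theorem C04_k (H : EyeHyp F u d a b κ) : 0 < 1 / κ ∧ 1 / κ < 1 ∧ 1 < κ := by
  have h := H.hκ
  have h0 : 0 < κ := by linarith
  exact ⟨by positivity, by rw [div_lt_one h0]; exact h, h⟩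

private theorem C04_ioo {y : ℝ} (hya : |y| ≠ a) (h1 : ¬ a < y) (h2 : ¬ y < -a) :
    y ∈ Ioo (-a) a := by
  constructor
  · rcases lt_or_eq_of_le (not_lt.1 h2) with h | h
    · exact h
    · exfalso
      apply hya
      rw [← h, abs_neg, abs_of_nonneg]
      linarith [not_lt.1 h1, not_lt.1 h2]
  · rcases lt_or_eq_of_le (not_lt.1 h1) with h | h
    · exact h
    · exfalso
      apply hya
      rw [h, abs_of_nonneg]
      linarith [not_lt.1 h1, not_lt.1 h2]

private theorem C04_neg {y : ℝ} (hy : y ∈ Ioo (-a) a) : -y ∈ Ioo (-a) a :=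
  ⟨by linarith [hy.2], by linarith [hy.1]⟩

private theorem C04_abs1 {y : ℝ} (h : a < y) : a < |y| := h.trans_le (le_abs_self y)

private theorem C04_abs2 {y : ℝ} (h : y < -a) : a < |y| := by
  have := neg_le_abs y; linarith

/-- `sg > 1/κ` if `|x| ≤ b` -/
private theorem C04_L1 (H : EyeHyp F u d a b κ) {y x : ℝ} (hy : |y| ≤ π) (hya : |y| ≠ a)
    (hx : ¬ b < |x|) : 1 / κ < sg F u a b κ y x := by
  obtain ⟨k0, k1, k2⟩ := C04_k H
  unfold sg
  split_ifs with h1 h3 h4 h5 h6 h7
  · have := dF_out H h1.le hy; linarith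
  · linarith
  · have := dF_gt H (C04_abs1 h3) (not_lt.1 h1); linarith
  · linarith
  · have := dF_gt H (C04_abs2 h5) (not_lt.1 h1); linarith
  · exact H.hlow y (C04_ioo hya h3 h5)
  · exact H.hlow _ (C04_neg (C04_ioo hya h3 h5))

private theorem C04_L1' (H : EyeHyp F u d a b κ) {y x : ℝ} (hy : |y| ≤ π) (hya : |y| ≠ a) :
    1 / κ ≤ sg F u a b κ y x := by
  by_cases hx : b < |x|
  · by_cases hyb : b < |y|
    · obtain ⟨k0, k1, k2⟩ := C04_k H
      unfold sg
      rw [if_pos hyb]
      have := dF_out H hyb.le hy; linarith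
    · unfold sg
      rw [if_neg hyb, if_pos hx]
  · exact (C04_L1 H hy hya hx).le

private theorem C04_inv (H : EyeHyp F u d a b κ) {s : ℝ} (hs : 1 / κ < s) : 1 / s < κ := by
  obtain ⟨k0, k1, k2⟩ := C04_k H
  have hs0 : 0 < s := k0.trans hs
  have hκ0 : 0 < κ := by linarith
  rw [div_lt_iff₀ hs0]
  rw [div_lt_iff₀ hκ0] at hs
  linarith

/-- `sg x x' + 1/κ ≤ F' x` if `|x| ≤ b` -/
private theorem C04_L3 (H : EyeHyp F u d a b κ) {x x' : ℝ} (hx : ¬ b < |x|) (hxa : |x| ≠ a) :
    sg F u a b κ x x' + 1 / κ ≤ deriv F x := by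
  obtain ⟨k0, k1, k2⟩ := C04_k H
  unfold sg
  rw [if_neg hx]
  split_ifs with h2 h3 h4 h5 h6 h7
  · rcases lt_or_gt_of_ne hxa with h | h
    · have hI : x ∈ Ioo (-a) a := abs_lt.1 h
      rw [dF_in H hI]
      have := H.hlow x hI
      have := H.hlow _ (C04_neg hI)
      linarith
    · have := dF_gt H h (not_lt.1 hx); linarith
  · have := dF_gt H (C04_abs1 h3) (not_lt.1 hx); linarith
  · linarith
  · have := dF_gt H (C04_abs2 h5) (not_lt.1 hx); linarith
  · linarith
  · have hI := C04_ioo hxa h3 h5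
    rw [dF_in H hI]
    have := H.hlow _ (C04_neg hI)
    linarith
  · have hI := C04_ioo hxa h3 h5
    rw [dF_in H hI]
    have := H.hlow _ hI
    linarith

/-- values of `sg y x` for `|x|, |y| ≤ b` -/
private theorem C04_v1 {y x : ℝ} (hy : ¬ b < |y|) (hx : ¬ b < |x|) (h : a < y) (hxy : x ≤ y) :
    sg F u a b κ y x = κ := by
  unfold sg
  rw [if_neg hy, if_neg hx, if_pos h, if_pos hxy]

private theorem C04_v2 {y x : ℝ} (ha : 0 < a) (hy : ¬ b < |y|) (hx : ¬ b < |x|) (h : y < -a)
    (hxy : y ≤ x) : sg F u a b κ y x = κ := by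
  unfold sg
  rw [if_neg hy, if_neg hx, if_neg (by linarith), if_pos h, if_pos hxy]

private theorem C04_v3 {y x : ℝ} (hy : ¬ b < |y|) (hx : ¬ b < |x|) (h : y ∈ Ioo (-a) a)
    (hu : u y < x) : sg F u a b κ y x = deriv u y := by
  unfold sg
  rw [if_neg hy, if_neg hx, if_neg (by linarith [h.2]), if_neg (by linarith [h.1]), if_pos hu]

private theorem C04_v4 {y x : ℝ} (hy : ¬ b < |y|) (hx : ¬ b < |x|) (h : y ∈ Ioo (-a) a)
    (hu : ¬ u y < x) : sg F u a b κ y x = deriv u (-y) := by
  unfold sg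
  rw [if_neg hy, if_neg hx, if_neg (by linarith [h.2]), if_neg (by linarith [h.1]), if_neg hu]

private theorem C04_dinv (H : EyeHyp F u d a b κ) {y : ℝ} (h : y ∈ Ioo (-a) a) :
    1 / deriv u y = deriv u (-u y) := by
  have h1 := du_inv H h
  obtain ⟨k0, k1, k2⟩ := C04_k H
  have h2 := H.hlow y h
  have h3 : deriv u y ≠ 0 := by linarith
  field_simp
  linarith

private theorem C04_below {y x : ℝ} (h : y ∈ Ioo (-a) a) (hu : ¬ u y < x)
    (hE : ¬ EE u a y x) : x < -u (-y) := by
  by_contra hc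
  exact hE ⟨(abs_lt.2 h).le, not_lt.1 hc, not_lt.1 hu⟩

theorem sg_pos (H : EyeHyp F u d a b κ) {y x : ℝ} (hy : |y| ≤ π) (hya : |y| ≠ a) :
    0 < sg F u a b κ y x :=
  (C04_k H).1.trans_le (C04_L1' H hy hya)

theorem sg_neg (H : EyeHyp F u d a b κ) {y x : ℝ} (hya : |y| ≠ a) (hE : ¬ EE u a y x) :
    sg F u a b κ (-y) (-x) = sg F u a b κ y x := by
  have ha := H.ha
  unfold sg
  rw [abs_neg, abs_neg]
  by_cases h1 : b < |y|
  · rw [if_pos h1, if_pos h1, dF_even H]
  rw [if_neg h1, if_neg h1]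
  by_cases h2 : b < |x|
  · rw [if_pos h2, if_pos h2]
  rw [if_neg h2, if_neg h2]
  by_cases h3 : a < y
  · rw [if_neg (by linarith : ¬ a < -y), if_pos (by linarith : -y < -a), if_pos h3, dF_even H]
    by_cases h4 : x ≤ y
    · rw [if_pos (by linarith : -y ≤ -x), if_pos h4]
    · rw [if_neg (by linarith : ¬ -y ≤ -x), if_neg h4]
  by_cases h5 : y < -a
  · rw [if_pos (by linarith : a < -y), if_neg h3, if_pos h5, dF_even H]
    by_cases h4 : y ≤ x
    · rw [if_pos (by linarith : -x ≤ -y), if_pos h4]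
    · rw [if_neg (by linarith : ¬ -x ≤ -y), if_neg h4]
  have hI := C04_ioo hya h3 h5
  rw [if_neg (by linarith [hI.1] : ¬ a < -y), if_neg (by linarith [hI.2] : ¬ -y < -a), if_neg h3,
    if_neg h5, neg_neg]
  by_cases h6 : u y < x
  · have e1 := v_lt H hI
    have e2 := H.hup y hI
    rw [if_pos h6, if_neg (by linarith : ¬ u (-y) < -x)]
  · have e1 := C04_below hI h6 hE
    rw [if_neg h6, if_pos (by linarith : u (-y) < -x)]

theorem star (H : EyeHyp F u d a b κ) {y x x' : ℝ} {k : ℤ} (hy : y ∈ Ico (-π) π) (hx : x ∈ Ico (-π) π)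
    (hx' : x' ∈ Ico (-π) π) (e : x' = F x - y + 2 * π * k) (hya : |y| ≠ a) (hxa : |x| ≠ a)
    (hE : ¬ EE u a y x) :
    1 / sg F u a b κ y x + sg F u a b κ x x' < deriv F x := by
  obtain ⟨k0, k1, k2⟩ := C04_k H
  have ha := H.ha
  have hab := H.hab
  have hyπ : |y| ≤ π := abs_le.2 ⟨hy.1, hy.2.le⟩
  have hxπ : |x| ≤ π := abs_le.2 ⟨hx.1, hx.2.le⟩
  by_cases hxb : b < |x|
  · -- case A
    have e1 : sg F u a b κ x x' = deriv F x / 2 := by unfold sg; rw [if_pos hxb]
    have e2 := dF_out H hxb.le hxπ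
    have e3 := C04_L1' H (x := x) hyπ hya
    have e4 : 1 / sg F u a b κ y x ≤ κ := by
      have hs0 := k0.trans_le e3
      have hκ0 : 0 < κ := by linarith
      rw [div_le_iff₀ hs0]
      rw [div_le_iff₀ hκ0] at e3
      linarith
    rw [e1]; linarith
  by_cases hyb : b < |y|
  · -- case B
    have e1 : sg F u a b κ y x = deriv F y / 2 := by unfold sg; rw [if_pos hyb]
    have e2 := dF_out H hyb.le hyπ
    have e3 := C04_L3 H (x' := x') hxb hxa
    have e4 : 1 / sg F u a b κ y x < 1 / κ := by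
      rw [e1]
      apply one_div_lt_one_div_of_lt (by linarith)
      linarith
    linarith
  obtain ⟨nw1, nw2⟩ := nowrap H (not_lt.1 hyb) (not_lt.1 hxb) hx' e
  have hL1 : 1 / sg F u a b κ y x < κ := C04_inv H (C04_L1 H hyπ hya hxb)
  -- the value 1/sg y x when |x| < a
  by_cases hxa2 : a < |x|
  · have hg := dF_gt H hxa2 (not_lt.1 hxb)
    by_cases hx'b : b < |x'|
    · have e1 : sg F u a b κ x x' = 1 / κ := by unfold sg; rw [if_neg hxb, if_pos hx'b]
      rw [e1]; linarith
    have ex := nw1 (not_lt.1 hx'b)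
    have hxb' := abs_le.1 (not_lt.1 hxb)
    by_cases hpos : 0 ≤ x
    · have hax : a < x := by rwa [abs_of_nonneg hpos] at hxa2
      by_cases h4 : x' ≤ x
      · have e1 : sg F u a b κ x x' = κ := C04_v1 hxb hx'b hax h4
        have e2 := two_lt H (x := x) ⟨hax, hxb'.2⟩
        have e3 : x < y := by linarith
        have e4 : sg F u a b κ y x = κ := C04_v1 hyb hxb (by linarith) e3.le
        rw [e1, e4]; linarith
      · have e1 : sg F u a b κ x x' = deriv F x - κ := by
          unfold sg; rw [if_neg hxb, if_neg hx'b, if_pos hax, if_neg h4]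
        rw [e1]; linarith
    · have hax : x < -a := by
        rw [abs_of_neg (not_le.1 hpos)] at hxa2; linarith
      by_cases h4 : x ≤ x'
      · have e1 : sg F u a b κ x x' = κ := C04_v2 ha hxb hx'b hax h4
        have e2 := two_lt H (x := -x) ⟨by linarith, by linarith [hxb'.1]⟩
        rw [H.hodd] at e2
        have e3 : y < x := by linarith
        have e4 : sg F u a b κ y x = κ := C04_v2 ha hyb hxb (by linarith) e3.le
        rw [e1, e4]; linarith
      · have e1 : sg F u a b κ x x' = deriv F x - κ := by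
          unfold sg
          rw [if_neg hxb, if_neg hx'b, if_neg (by linarith), if_pos hax, if_neg h4]
        rw [e1]; linarith
  · have hI : x ∈ Ioo (-a) a := abs_lt.1 (lt_of_le_of_ne (not_lt.1 hxa2) hxa)
    have hIn := C04_neg hI
    have l1 := H.hlow x hI
    have l2 := H.hlow _ hIn
    have hdF := dF_in H hI
    have hFx := H.hFu x hI
    have um1 := u_maps H hI
    have um2 := u_maps H hIn
    have hup := H.hup x hI
    have hvl := v_lt H hI
    have hmono := u_strict H
    have icc : ∀ {z : ℝ}, z ∈ Ioo (-a) a → z ∈ Icc (-a) a := fun h => ⟨h.1.le, h.2.le⟩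
    rw [hdF]
    by_cases h3 : a < y
    · have e4 : sg F u a b κ y x = κ := C04_v1 hyb hxb h3 (by linarith [hI.2])
      rw [e4]
      by_cases hx'b : b < |x'|
      · have e1 : sg F u a b κ x x' = 1 / κ := by unfold sg; rw [if_neg hxb, if_pos hx'b]
        rw [e1]; linarith
      · have ex := nw1 (not_lt.1 hx'b)
        have e1 : sg F u a b κ x x' = deriv u (-x) := by
          apply C04_v4 hxb hx'b hI
          linarith [um1.2]
        rw [e1]; linarith
    by_cases h5 : y < -a
    · have e4 : sg F u a b κ y x = κ := C04_v2 ha hyb hxb h5 (by linarith [hI.1])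
      rw [e4]
      by_cases hx'b : b < |x'|
      · have e1 : sg F u a b κ x x' = 1 / κ := by unfold sg; rw [if_neg hxb, if_pos hx'b]
        rw [e1]; linarith
      · have ex := nw1 (not_lt.1 hx'b)
        have e1 : sg F u a b κ x x' = deriv u x := by
          apply C04_v3 hxb hx'b hI
          linarith [um2.2]
        rw [e1]; linarith
    have hJ := C04_ioo hya h3 h5
    have hJn := C04_neg hJ
    by_cases h6 : u y < x
    · have e4 : sg F u a b κ y x = deriv u y := C04_v3 hyb hxb hJ h6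
      have hm := u_maps H hJ
      have e5 : deriv u (-u y) < deriv u (-x) := H.hanti hIn (C04_neg hm) (by linarith)
      rw [e4, C04_dinv H hJ]
      by_cases hx'b : b < |x'|
      · have e1 : sg F u a b κ x x' = 1 / κ := by unfold sg; rw [if_neg hxb, if_pos hx'b]
        rw [e1]; linarith
      · have ex := nw1 (not_lt.1 hx'b)
        have e6 : u (-x) < u (-u y) := hmono (icc hIn) (icc (C04_neg hm)) (by linarith)
        rw [H.hinv y hJ] at e6
        have e1 : sg F u a b κ x x' = deriv u x := by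
          apply C04_v3 hxb hx'b hI
          linarith
        rw [e1]; linarith
    · have hb := C04_below hJ h6 hE
      have e4 : sg F u a b κ y x = deriv u (-y) := C04_v4 hyb hxb hJ h6
      have hm := u_maps H hJn
      have e5 : deriv u (-u (-y)) < deriv u x := H.hanti hI (C04_neg hm) hb
      rw [e4, C04_dinv H hJn]
      by_cases hx'b : b < |x'|
      · have e1 : sg F u a b κ x x' = 1 / κ := by unfold sg; rw [if_neg hxb, if_pos hx'b]
        rw [e1]; linarith
      · have ex := nw1 (not_lt.1 hx'b)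
        have e6 : u x < u (-u (-y)) := hmono (icc hI) (icc (C04_neg hm)) hb
        rw [H.hinv _ hJn, neg_neg] at e6
        have e1 : sg F u a b κ x x' = deriv u (-x) := by
          apply C04_v4 hxb hx'b hI
          linarith
        rw [e1]; linarith

end Pool.Agent.LibEye
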