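import Pool.Agent.LibEye.Link
/-! Row C02: F outside (-a, a), evenness, periodicity, no wrap.
PLAN. dF_even, dF_per, F_per: from hodd, hper (`deriv_comp_neg`, `deriv_comp_add_const`; induction on k or
`Function.Periodic.int_mul` for deriv F). dF_gt: a < |x| ≤ b: hdFab and dF_even. dF_out: hout and dF_even. two_lt: F x - 2x has
derivative > κ + 1/κ - 2 > 0 on (a, x) and vanishes at a (mean value theorem). F_abs: on [-a, a] F x = u x - u (-x) is in
[-2a, 2a] (F_icc, u_maps_icc); on [a, b] F is increasing; F b ≥ F a = 2 a; oddness. b_lt_pi: F b ≥ 2 b by two_lt, hwrap.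
nowrap: |F x - y| ≤ F b + b < 2π - b; x' differs from it by 2πk; if |x'| ≤ b then |2πk| < 2π, k = 0; if b < |x'| and
|F x - y| ≤ b < π then both are in [-π, π), so k = 0, contradiction. -/
set_option autoImplicit false
open Real Set
namespace Pool.Agent.LibEye
variable {F u : ℝ → ℝ} {d : ℤ} {a b κ : ℝ}

theorem dF_even (H : EyeHyp F u d a b κ) (x : ℝ) : deriv F (-x) = deriv F x := by
  have h1 : (fun x => F (-x)) = fun x => -F x := funext H.hodd
  have h2 : deriv (fun x => F (-x)) x = -deriv F (-x) := deriv_comp_neg F x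
  rw [h1, deriv.fun_neg] at h2
  linarith

theorem F_per (H : EyeHyp F u d a b κ) (x : ℝ) (k : ℤ) :
    F (x + 2 * π * k) = F x + 2 * π * (d * k) := by
  induction k using Int.induction_on with
  | zero => simp
  | succ k ih =>
    have h1 := H.hper (x + 2 * π * (k : ℤ))
    rw [ih] at h1
    have h2 : x + 2 * π * (((k : ℤ) + 1 : ℤ) : ℝ) = x + 2 * π * ((k : ℤ) : ℝ) + 2 * π := by
      push_cast
      ring
    rw [h2, h1]
    push_cast
    ring
  | pred k ih =>
    have h1 := H.hper (x + 2 * π * ((-(k : ℤ) - 1 : ℤ) : ℝ))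
    have h2 : x + 2 * π * ((-(k : ℤ) - 1 : ℤ) : ℝ) + 2 * π = x + 2 * π * ((-(k : ℤ) : ℤ) : ℝ) := by
      push_cast
      ring
    rw [h2, ih] at h1
    push_cast at h1 ⊢
    linarith

theorem dF_per (H : EyeHyp F u d a b κ) (x : ℝ) (k : ℤ) : deriv F (x + 2 * π * k) = deriv F x := by
  have h1 : (fun x => F (x + 2 * π * k)) = fun x => F x + 2 * π * (d * k) :=
    funext fun x => F_per H x k
  have h2 : deriv (fun x => F (x + 2 * π * k)) x = deriv F (x + 2 * π * k) :=
    deriv_comp_add_const F (2 * π * k) x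
  rw [← h2, h1, deriv_add_const]

private theorem C02_dF_abs (H : EyeHyp F u d a b κ) (x : ℝ) : deriv F |x| = deriv F x := by
  rcases abs_choice x with h | h
  · rw [h]
  · rw [h, dF_even H]

theorem dF_gt (H : EyeHyp F u d a b κ) {x : ℝ} (h1 : a < |x|) (h2 : |x| ≤ b) :
    κ + 1 / κ < deriv F x := by
  rw [← C02_dF_abs H]
  exact H.hdFab _ ⟨h1, h2⟩

theorem dF_out (H : EyeHyp F u d a b κ) {x : ℝ} (h1 : b ≤ |x|) (h2 : |x| ≤ π) :
    2 * κ < deriv F x := by
  rw [← C02_dF_abs H]
  exact H.hout _ ⟨h1, h2⟩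

private theorem C02_two (H : EyeHyp F u d a b κ) : 2 < κ + 1 / κ := by
  have h1 := H.hκ
  have h0 : 0 < κ := by linarith
  have h2 : κ + 1 / κ - 2 = (κ - 1) ^ 2 / κ := by
    field_simp
    ring
  have h3 : 0 < (κ - 1) ^ 2 / κ := by
    apply div_pos _ h0
    apply pow_pos
    linarith
  linarith

theorem two_lt (H : EyeHyp F u d a b κ) {x : ℝ} (hx : x ∈ Ioc a b) : 2 * x < F x := by
  obtain ⟨c, hc, hd⟩ := exists_deriv_eq_slope F hx.1 H.hF.continuous.continuousOn
    (H.hF.differentiable (by norm_num)).differentiableOn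
  have h1 := H.hdFab c ⟨hc.1, hc.2.le.trans hx.2⟩
  have h2 := C02_two H
  have h3 : 0 < x - a := by linarith [hx.1]
  rw [hd, lt_div_iff₀ h3, H.hFa] at h1
  have h4 : 2 * (x - a) < (κ + 1 / κ) * (x - a) := mul_lt_mul_of_pos_right h2 h3
  linarith

theorem b_lt_pi (H : EyeHyp F u d a b κ) : b < π := by
  have h1 := two_lt H (x := b) ⟨H.hab, le_refl b⟩
  have h2 := H.hwrap
  have h3 := H.ha
  have h4 := H.hab
  linarith

private theorem C02_pos (H : EyeHyp F u d a b κ) {x : ℝ} (h0 : 0 ≤ x) (hx : x ≤ b) :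
    |F x| ≤ F b := by
  have hb := two_lt H (x := b) ⟨H.hab, le_refl b⟩
  have ha := H.ha
  have hab := H.hab
  rcases le_or_gt x a with h | h
  · have h1 : x ∈ Icc (-a) a := ⟨by linarith, h⟩
    have h2 : -x ∈ Icc (-a) a := ⟨by linarith, by linarith⟩
    have h3 := u_maps_icc H h1
    have h4 := u_maps_icc H h2
    rw [F_icc H h1, abs_le]
    constructor
    · linarith [h3.1, h4.2]
    · linarith [h3.2, h4.1]
  · have hm : StrictMonoOn F (Icc a b) := by
      apply strictMonoOn_of_deriv_pos (convex_Icc a b) H.hF.continuous.continuousOn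
      intro y hy
      rw [interior_Icc] at hy
      have h1 := H.hdFab y ⟨hy.1, hy.2.le⟩
      linarith [C02_two H]
    have h1 : F a ≤ F x := hm.monotoneOn ⟨le_refl a, hab.le⟩ ⟨h.le, hx⟩ h.le
    have h2 : F x ≤ F b := hm.monotoneOn ⟨h.le, hx⟩ ⟨hab.le, le_refl b⟩ hx
    rw [H.hFa] at h1
    rw [abs_of_nonneg (by linarith)]
    exact h2

theorem F_abs (H : EyeHyp F u d a b κ) {x : ℝ} (hx : |x| ≤ b) : |F x| ≤ F b := by
  have h1 := C02_pos H (abs_nonneg x) hx
  rcases abs_choice x with h | h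
  · rwa [h] at h1
  · rwa [h, H.hodd, abs_neg] at h1

private theorem C02_zero {k : ℤ} (h1 : -(2 * π) < 2 * π * k) (h2 : 2 * π * k < 2 * π) : k = 0 := by
  have hp : 0 < 2 * π := by positivity
  have h3 : (-1 : ℝ) < k := by
    by_contra h
    push Not at h
    have := mul_le_mul_of_nonneg_left h hp.le
    linarith
  have h4 : (k : ℝ) < 1 := by
    by_contra h
    push Not at h
    have := mul_le_mul_of_nonneg_left h hp.le
    linarith
  have h5 : (-1 : ℤ) < k := by exact_mod_cast h3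
  have h6 : k < 1 := by exact_mod_cast h4
  omega

/-- no wrap around the torus inside the strip -/
theorem nowrap (H : EyeHyp F u d a b κ) {y x x' : ℝ} {k : ℤ} (hy : |y| ≤ b) (hx : |x| ≤ b)
    (hx' : x' ∈ Ico (-π) π) (e : x' = F x - y + 2 * π * k) :
    (|x'| ≤ b → x' = F x - y) ∧ (b < |x'| → b < |F x - y|) := by
  have hF := abs_le.1 (F_abs H hx)
  have hy' := abs_le.1 hy
  have hw := H.hwrap
  have hbp := b_lt_pi H
  constructor
  · intro h
    have h' := abs_le.1 h
    have hk : k = 0 := C02_zero (by linarith [hF.1, hF.2, hy'.1, hy'.2, h'.1, h'.2])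
      (by linarith [hF.1, hF.2, hy'.1, hy'.2, h'.1, h'.2])
    rw [e, hk]
    simp
  · intro h
    by_contra hcon
    push Not at hcon
    have h' := abs_le.1 hcon
    have hk : k = 0 := C02_zero (by linarith [hx'.1, hx'.2, h'.1, h'.2])
      (by linarith [hx'.1, hx'.2, h'.1, h'.2])
    have h1 : x' = F x - y := by
      rw [e, hk]
      simp
    rw [h1] at h
    linarith

end Pool.Agent.LibEye
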