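import Pool.Agent.LibEye.Rep
/-! Row C08: the torus map preserves the measure; null sets.
PLAN. measurable_rep: `AddCircle.measurableEquivIco`. tmap_mp: (x, y) ↦ (x, F x - y) is measure preserving
(`MeasurePreserving.skew_product`: for each x the map y ↦ c - y preserves the measure, `measurePreserving_sub_left` or neg and
translation), followed by `Measure.measurePreserving_swap`. fst_null: {p | p.1 = c} = {c} ×ˢ univ, volume {c} = 0 in AddCircle
(NoAtoms). graph_null: measurable set; `Measure.measure_prod_null` after a swap, each slice is contained in one point.
F only measurable. -/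
set_option autoImplicit false
open Real Set MeasureTheory Filter
namespace Pool.Agent.LibEye

theorem measurable_rep : Measurable rep :=
  measurable_subtype_coe.comp (AddCircle.measurableEquivIco (2 * π) (-π)).measurable

private theorem C08_sub_measurable {F : ℝ → ℝ} (hF : Measurable F) :
    Measurable (fun p : Torus => ((F (rep p.1) : ℝ) : Circ) - p.2) := by
  have h1 : Measurable (fun p : Torus => ((F (rep p.1) : ℝ) : Circ)) :=
    AddCircle.measurable_mk'.comp (hF.comp (measurable_rep.comp measurable_fst))
  exact h1.sub measurable_snd

theorem tmap_measurable {F : ℝ → ℝ} (hF : Measurable F) : Measurable (tmap F) :=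
  (C08_sub_measurable hF).prodMk measurable_fst

theorem tmap_mp {F : ℝ → ℝ} (hF : Measurable F) :
    MeasurePreserving (tmap F) (volume : Measure Torus) volume := by
  have h1 : MeasurePreserving
      (fun p : Torus => (p.1, ((F (rep p.1) : ℝ) : Circ) - p.2))
      ((volume : Measure Circ).prod (volume : Measure Circ))
      ((volume : Measure Circ).prod (volume : Measure Circ)) := by
    refine MeasurePreserving.skew_product (f := fun x : Circ => x)
      (g := fun (x : Circ) (y : Circ) => ((F (rep x) : ℝ) : Circ) - y)
      (MeasurePreserving.id (volume : Measure Circ)) ?_ ?_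
    · exact C08_sub_measurable hF
    · refine Filter.Eventually.of_forall fun x => ?_
      exact (Measure.measurePreserving_sub_left (volume : Measure Circ) ((F (rep x) : ℝ) : Circ)).map_eq
  have h2 : MeasurePreserving (Prod.swap : Circ × Circ → Circ × Circ)
      ((volume : Measure Circ).prod (volume : Measure Circ))
      ((volume : Measure Circ).prod (volume : Measure Circ)) :=
    Measure.measurePreserving_swap
  exact h2.comp h1

private theorem C08_singleton_null (c : Circ) : (volume : Measure Circ) {c} = 0 := by
  have h := AddCircle.volume_closedBall (T := 2 * π) (x := c) 0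
  rw [Metric.closedBall_zero, mul_zero, min_eq_right (by positivity), ENNReal.ofReal_zero] at h
  exact h

theorem fst_null (c : Circ) : volume {p : Torus | p.1 = c} = 0 := by
  have h : {p : Torus | p.1 = c} = ({c} : Set Circ) ×ˢ (univ : Set Circ) := by
    ext p
    simp
  rw [h, Measure.volume_eq_prod, Measure.prod_prod, C08_singleton_null, zero_mul]

theorem snd_null (c : Circ) : volume {p : Torus | p.2 = c} = 0 := by
  have h : {p : Torus | p.2 = c} = (univ : Set Circ) ×ˢ ({c} : Set Circ) := by
    ext p
    simp
  rw [h, Measure.volume_eq_prod, Measure.prod_prod, C08_singleton_null, mul_zero]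

theorem graph_null {f : ℝ → ℝ} (hf : Measurable f) :
    volume {p : Torus | rep p.1 = f (rep p.2)} = 0 := by
  have hm : MeasurableSet {p : Torus | rep p.1 = f (rep p.2)} :=
    measurableSet_eq_fun (measurable_rep.comp measurable_fst)
      (hf.comp (measurable_rep.comp measurable_snd))
  rw [Measure.volume_eq_prod, Measure.prod_apply_symm hm]
  have h0 : ∀ y : Circ, (volume : Measure Circ)
      ((fun x => (x, y)) ⁻¹' {p : Torus | rep p.1 = f (rep p.2)}) = 0 := by
    intro y
    refine measure_mono_null ?_ (C08_singleton_null ((f (rep y) : ℝ) : Circ))
    intro x hx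
    have hx' : rep x = f (rep y) := hx
    rw [mem_singleton_iff, ← hx', coe_rep]
  simp only [h0, lintegral_zero]

end Pool.Agent.LibEye
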