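import Pool.Agent.LibEye.Closed
import Pool.Agent.LibEye.Outer
import Pool.Agent.LibEye.TMap
/-! Row C12: the open eye. PLAN. eye_open: eye = image of {q : ℝ × ℝ | q.2 ∈ Ioo (-a) a ∧ -u (-q.2) < q.1 ∧ q.1 < u q.2} (open) under
Prod.map coe coe (open map: `QuotientAddGroup.isOpenMap_coe`, `IsOpenMap.prodMap`); rep_coe, coe_rep, a < π, |q.1| < a (u_maps).
eye_inv: eo_fwd, eo_bwd, tmap_rep with both values in (-a, a) so k = 0. eye_zero: rep 0 = 0, u 0 > 0, F 0 = 0.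
eye_compl: the complement contains the non-empty open set of p with rep p.2 ∈ Ioo b π (image of an open set), `IsOpen.measure_pos`. -/
set_option autoImplicit false
open Real Set MeasureTheory Filter
namespace Pool.Agent.LibEye
variable {F u : ℝ → ℝ} {d : ℤ} {a b κ : ℝ}

private lemma C12_openMap : IsOpenMap (fun q : ℝ × ℝ => (((q.1 : ℝ) : Circ), ((q.2 : ℝ) : Circ))) := by
  have h1 : IsOpenMap (fun x : ℝ => (x : Circ)) := QuotientAddGroup.isOpenMap_coe
  exact h1.prodMap h1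

private lemma C12_kzero {s t : ℝ} {k : ℤ} (hs : s ∈ Ico (-π) π) (ht : -π < t) (ht' : t < π)
    (e : s = t + 2 * π * k) : k = 0 := by
  have hpi := Real.pi_pos
  by_contra hk
  rcases lt_or_gt_of_ne hk with h | h
  · have h1 : (k : ℝ) ≤ -1 := by
      have : k ≤ -1 := by omega
      exact_mod_cast this
    have h2 : 2 * π * (k : ℝ) ≤ 2 * π * (-1) := mul_le_mul_of_nonneg_left h1 (by positivity)
    have h3 := hs.1
    linarith
  · have h1 : (1 : ℝ) ≤ k := by
      have : 1 ≤ k := by omega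
      exact_mod_cast this
    have h2 : 2 * π * 1 ≤ 2 * π * (k : ℝ) := mul_le_mul_of_nonneg_left h1 (by positivity)
    have h3 := hs.2
    linarith

private lemma C12_neg {x : ℝ} (hx : x ∈ Ioo (-a) a) : -x ∈ Ioo (-a) a :=
  ⟨by linarith [hx.2], by linarith [hx.1]⟩

theorem eye_open (H : EyeHyp F u d a b κ) : IsOpen (eye u a) := by
  have hpi : a < π := H.hab.trans (b_lt_pi H)
  have hW : IsOpen {q : ℝ × ℝ | (-a < q.2 ∧ q.2 < a) ∧ -u (-q.2) < q.1 ∧ q.1 < u q.2} := by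
    have hu := H.hcu
    refine IsOpen.inter (IsOpen.inter ?_ ?_) (IsOpen.inter ?_ ?_)
    · exact isOpen_lt continuous_const continuous_snd
    · exact isOpen_lt continuous_snd continuous_const
    · exact isOpen_lt (hu.comp continuous_snd.neg).neg continuous_fst
    · exact isOpen_lt continuous_fst (hu.comp continuous_snd)
  have himg : eye u a = (fun q : ℝ × ℝ => (((q.1 : ℝ) : Circ), ((q.2 : ℝ) : Circ))) ''
      {q : ℝ × ℝ | (-a < q.2 ∧ q.2 < a) ∧ -u (-q.2) < q.1 ∧ q.1 < u q.2} := by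
    ext p
    constructor
    · rintro ⟨h1, h2, h3⟩
      exact ⟨(rep p.1, rep p.2), ⟨h1, h2, h3⟩, Prod.ext (coe_rep _) (coe_rep _)⟩
    · rintro ⟨q, ⟨h1, h2, h3⟩, rfl⟩
      have h4 := u_maps H (⟨h1.1, h1.2⟩ : q.2 ∈ Ioo (-a) a)
      have h5 := u_maps H (C12_neg (⟨h1.1, h1.2⟩ : q.2 ∈ Ioo (-a) a))
      have h6 : rep ((q.2 : ℝ) : Circ) = q.2 := rep_coe ⟨by linarith [h1.1], by linarith [h1.2]⟩
      have h7 : rep ((q.1 : ℝ) : Circ) = q.1 :=
        rep_coe ⟨by linarith [h5.2], by linarith [h4.2]⟩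
      show rep ((q.2 : ℝ) : Circ) ∈ Ioo (-a) a ∧ -u (-rep ((q.2 : ℝ) : Circ)) < rep ((q.1 : ℝ) : Circ) ∧
        rep ((q.1 : ℝ) : Circ) < u (rep ((q.2 : ℝ) : Circ))
      rw [h6, h7]
      exact ⟨⟨h1.1, h1.2⟩, h2, h3⟩
  rw [himg]
  exact C12_openMap _ hW

theorem eye_inv (H : EyeHyp F u d a b κ) : tmap F ⁻¹' eye u a = eye u a := by
  have hpi : a < π := H.hab.trans (b_lt_pi H)
  ext p
  obtain ⟨k, hk⟩ := tmap_rep F p
  have h20 : (tmap F p).2 = p.1 := rfl
  constructor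
  · rintro ⟨h1, h2, h3⟩
    rw [h20] at h1 h2 h3
    obtain ⟨h4, h5, h6⟩ := eo_bwd H h1 h2 h3
    have h7 : rep p.2 = (F (rep p.1) - rep (tmap F p).1) + 2 * π * k := by
      rw [hk]
      ring
    have h8 := C12_kzero (rep_mem p.2) (by linarith [h4.1]) (by linarith [h4.2]) h7
    have h9 : rep p.2 = F (rep p.1) - rep (tmap F p).1 := by
      rw [h7, h8]
      simp
    rw [← h9] at h4 h5 h6
    exact ⟨h4, h5, h6⟩
  · rintro ⟨h1, h2, h3⟩
    obtain ⟨h4, h5, h6⟩ := eo_fwd H h1 h2 h3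
    have h10 := u_maps H h4
    have h11 := u_maps H (C12_neg h4)
    have h8 := C12_kzero (rep_mem (tmap F p).1) (t := F (rep p.1) - rep p.2)
      (by linarith [h11.2]) (by linarith [h10.2]) hk
    have h9 : rep (tmap F p).1 = F (rep p.1) - rep p.2 := by
      rw [hk, h8]
      simp
    show rep (tmap F p).2 ∈ Ioo (-a) a ∧ -u (-rep (tmap F p).2) < rep (tmap F p).1 ∧
      rep (tmap F p).1 < u (rep (tmap F p).2)
    rw [h20, h9]
    exact ⟨h4, h5, h6⟩

theorem eye_zero (H : EyeHyp F u d a b κ) : (0 : Torus) ∈ eye u a ∧ tmap F 0 = 0 := by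
  have hpi := Real.pi_pos
  have h0 : rep ((0 : Circ)) = 0 := by
    have h1 : rep (((0 : ℝ)) : Circ) = 0 := rep_coe ⟨by linarith, by linarith⟩
    have h2 : (((0 : ℝ)) : Circ) = 0 := rfl
    rwa [h2] at h1
  have ha := H.ha
  have hz : (0 : ℝ) ∈ Ioo (-a) a := ⟨by linarith, ha⟩
  have hu0 := H.hup 0 hz
  constructor
  · show rep (0 : Circ) ∈ Ioo (-a) a ∧ -u (-rep (0 : Circ)) < rep (0 : Circ) ∧
      rep (0 : Circ) < u (rep (0 : Circ))
    rw [h0]
    refine ⟨hz, ?_, hu0⟩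
    rw [neg_zero]
    linarith
  · have hF0 : F 0 = 0 := by
      have := H.hodd 0
      rw [neg_zero] at this
      linarith
    have h3 : tmap F 0 = (((F (rep (0 : Circ)) : ℝ) : Circ) - 0, (0 : Circ)) := rfl
    rw [h3, h0, hF0, sub_zero]
    rfl

theorem eye_compl (H : EyeHyp F u d a b κ) : 0 < volume (eye u a)ᶜ := by
  have hpi : b < π := b_lt_pi H
  have hab := H.hab
  have ha := H.ha
  have hW : IsOpen {q : ℝ × ℝ | b < q.2 ∧ q.2 < π} := by
    refine IsOpen.inter ?_ ?_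
    · exact isOpen_lt continuous_const continuous_snd
    · exact isOpen_lt continuous_snd continuous_const
  have hO := C12_openMap _ hW
  have hne : ((fun q : ℝ × ℝ => (((q.1 : ℝ) : Circ), ((q.2 : ℝ) : Circ))) ''
      {q : ℝ × ℝ | b < q.2 ∧ q.2 < π}).Nonempty := by
    refine ⟨_, ⟨(0, (b + π) / 2), ⟨?_, ?_⟩, rfl⟩⟩
    · show b < (b + π) / 2
      linarith
    · show (b + π) / 2 < π
      linarith
  refine lt_of_lt_of_le (hO.measure_pos volume hne) (measure_mono ?_)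
  rintro _ ⟨q, ⟨h1, h2⟩, rfl⟩ hmem
  have h3 : rep ((q.2 : ℝ) : Circ) = q.2 := rep_coe ⟨by linarith, h2⟩
  have h4 : rep ((q.2 : ℝ) : Circ) ∈ Ioo (-a) a := hmem.1
  rw [h3] at h4
  linarith [h4.2]

end Pool.Agent.LibEye
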