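import Pool.Agent.LibEye.Closed
import Pool.Agent.LibEye.TMap
import Pool.Agent.LibEye.Outer
/-! Row C13: almost every point outside the open eye is good. PLAN. The sets {p | rep p.1 = ±a}, {rep p.2 = ±a} are contained in
fst_null / snd_null sets; their preimages under (tmap F)^[n] are null (tmap_mp.iterate). Closed eye minus open eye is
contained in {rep p.2 = ±a} ∪ {rep p.1 = u (rep p.2)} ∪ {rep p.1 = -u (-rep p.2)}: graph_null. If T^n p is in the closed
eye for some n then p is (ee_bwd: rep p.2 = F (rep p.1) - rep (T p).1 because both are in [-π, π) and equal mod 2π and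
|F (rep p.1) - rep (T p).1| ≤ a < π by ee_bwd; a < π from EyeHyp or add the import Outer), so p ∈ eye a.e. -/
set_option autoImplicit false
open Real Set MeasureTheory Filter
namespace Pool.Agent.LibEye
variable {F u : ℝ → ℝ} {d : ℤ} {a b κ : ℝ}

private theorem C13_fst (a : ℝ) : ∀ᵐ p : Torus, |rep p.1| ≠ a := by
  have h1 : ∀ᵐ p : Torus, p.1 ≠ ((a : ℝ) : Circ) := by
    rw [ae_iff]
    simpa using fst_null ((a : ℝ) : Circ)
  have h2 : ∀ᵐ p : Torus, p.1 ≠ ((-a : ℝ) : Circ) := by
    rw [ae_iff]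
    simpa using fst_null ((-a : ℝ) : Circ)
  filter_upwards [h1, h2] with p hp1 hp2 hp
  rcases abs_choice (rep p.1) with h | h
  · rw [h] at hp
    exact hp1 (by rw [← hp, coe_rep])
  · rw [h] at hp
    exact hp2 (by rw [← hp, neg_neg, coe_rep])

private theorem C13_snd (a : ℝ) : ∀ᵐ p : Torus, |rep p.2| ≠ a := by
  have h1 : ∀ᵐ p : Torus, p.2 ≠ ((a : ℝ) : Circ) := by
    rw [ae_iff]
    simpa using snd_null ((a : ℝ) : Circ)
  have h2 : ∀ᵐ p : Torus, p.2 ≠ ((-a : ℝ) : Circ) := by
    rw [ae_iff]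
    simpa using snd_null ((-a : ℝ) : Circ)
  filter_upwards [h1, h2] with p hp1 hp2 hp
  rcases abs_choice (rep p.2) with h | h
  · rw [h] at hp
    exact hp1 (by rw [← hp, coe_rep])
  · rw [h] at hp
    exact hp2 (by rw [← hp, neg_neg, coe_rep])

private theorem C13_step (H : EyeHyp F u d a b κ) (q : Torus)
    (h : EE u a (rep (tmap F q).2) (rep (tmap F q).1)) : EE u a (rep q.2) (rep q.1) := by
  have hb := b_lt_pi H
  have hab := H.hab
  have h1 : EE u a (rep q.1) (rep (tmap F q).1) := h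
  have h2 := ee_bwd H h1
  obtain ⟨k, hk⟩ := tmap_rep F q
  have h3 := rep_mem q.2
  have h4 := abs_le.1 h2.1
  have h5 : rep q.2 - (F (rep q.1) - rep (tmap F q).1) = 2 * π * k := by linarith
  have hpi := Real.pi_pos
  have hk0 : k = 0 := by
    have h6 : (-1 : ℝ) < k := by
      have : 2 * π * (-1) < 2 * π * k := by
        rw [← h5]
        linarith [h3.1, h4.2]
      exact lt_of_mul_lt_mul_left this (by positivity)
    have h7 : (k : ℝ) < 1 := by
      have : 2 * π * k < 2 * π * 1 := by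
        rw [← h5]
        linarith [h3.2, h4.1]
      exact lt_of_mul_lt_mul_left this (by positivity)
    have h8 : (-1 : ℤ) < k := by exact_mod_cast h6
    have h9 : k < (1 : ℤ) := by exact_mod_cast h7
    omega
  rw [hk0] at h5
  have h6 : rep q.2 = F (rep q.1) - rep (tmap F q).1 := by
    push_cast at h5
    linarith
  rw [h6]
  exact h2

private theorem C13_iter (H : EyeHyp F u d a b κ) (n : ℕ) : ∀ q : Torus,
    EE u a (rep ((tmap F)^[n] q).2) (rep ((tmap F)^[n] q).1) → EE u a (rep q.2) (rep q.1) := by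
  induction n with
  | zero => intro q h; exact h
  | succ n ih =>
    intro q h
    rw [Function.iterate_succ_apply] at h
    exact C13_step H q (ih _ h)

theorem good_ae (H : EyeHyp F u d a b κ) : ∀ᵐ p : Torus, p ∉ eye u a → p ∈ Good F u a := by
  have hF : Measurable F := H.hF.continuous.measurable
  have h1 : ∀ n : ℕ, ∀ᵐ p : Torus, |rep ((tmap F)^[n] p).1| ≠ a := fun n =>
    ((tmap_mp hF).iterate n).quasiMeasurePreserving.ae (C13_fst a)
  have h2 : ∀ᵐ p : Torus, rep p.1 ≠ u (rep p.2) := by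
    rw [ae_iff]
    simpa using graph_null H.hcu.measurable
  have h3 : ∀ᵐ p : Torus, rep p.1 ≠ -u (-rep p.2) := by
    rw [ae_iff]
    have := graph_null (f := fun y => -u (-y)) (H.hcu.comp continuous_neg).neg.measurable
    simpa using this
  filter_upwards [ae_all_iff.2 h1, C13_snd a, h2, h3] with p hp1 hp2 hp3 hp4 hpe
  refine ⟨hp2, hp1, fun n hn => hpe ?_⟩
  obtain ⟨e1, e2, e3⟩ := C13_iter H n p hn
  have e4 : |rep p.2| < a := lt_of_le_of_ne e1 hp2
  exact ⟨abs_lt.1 e4, lt_of_le_of_ne e2 (Ne.symm hp4), lt_of_le_of_ne e3 hp3⟩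

end Pool.Agent.LibEye
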