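import Pool.Agent.LibEye.Defs
/-! Row C07: representatives and orbit sequences.
PLAN. coe_rep: `AddCircle.coe_equivIco`. rep_coe: `AddCircle.equivIco_coe_eq`. exists_int: coe_rep and
`AddCircle.coe_eq_coe_iff_of_mem_Ico` or `QuotientAddGroup.eq`, `AddSubgroup.mem_zmultiples_iff`.
orbS_succ: `Function.iterate_succ_apply'`. orbS_orb: coe of both sides agree in Circ, exists_int. -/
set_option autoImplicit false
open Real Set MeasureTheory Filter
namespace Pool.Agent.LibEye

theorem rep_mem (x : Circ) : rep x ∈ Ico (-π) π := by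
  have h := (AddCircle.equivIco (2 * π) (-π) x).2
  exact ⟨h.1, lt_of_lt_of_eq h.2 (by ring)⟩

theorem rep_abs (x : Circ) : |rep x| ≤ π := by
  have h := rep_mem x
  exact abs_le.2 ⟨h.1, h.2.le⟩

theorem coe_rep (x : Circ) : ((rep x : ℝ) : Circ) = x := by
  exact (AddCircle.equivIco (2 * π) (-π)).symm_apply_apply x

theorem rep_coe {y : ℝ} (hy : y ∈ Ico (-π) π) : rep (y : Circ) = y := by
  have h2 : -π + 2 * π = π := by ring
  have hy' : y ∈ Ico (-π) (-π + 2 * π) := by
    rw [h2]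
    exact hy
  unfold rep
  rw [AddCircle.equivIco_coe_eq hy']

theorem exists_int (y : ℝ) : ∃ k : ℤ, rep (y : Circ) = y + 2 * π * k := by
  have h : ((rep (y : Circ) : ℝ) : Circ) = (y : Circ) := coe_rep _
  rw [QuotientAddGroup.eq, AddSubgroup.mem_zmultiples_iff] at h
  obtain ⟨k, hk⟩ := h
  refine ⟨-k, ?_⟩
  rw [zsmul_eq_mul] at hk
  push_cast
  linarith

theorem coe_add_int (y : ℝ) (k : ℤ) : ((y + 2 * π * k : ℝ) : Circ) = (y : Circ) := by
  rw [QuotientAddGroup.eq, AddSubgroup.mem_zmultiples_iff]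
  refine ⟨-k, ?_⟩
  rw [zsmul_eq_mul]
  push_cast
  ring

theorem tmap_rep (F : ℝ → ℝ) (p : Torus) :
    ∃ k : ℤ, rep (tmap F p).1 = F (rep p.1) - rep p.2 + 2 * π * k := by
  have h1 : (tmap F p).1 = ((F (rep p.1) - rep p.2 : ℝ) : Circ) := by
    unfold tmap
    rw [AddCircle.coe_sub, coe_rep]
  rw [h1]
  exact exists_int _

/-- the sequence of representatives of the orbit of p = (x, y) under tmap F: s 0 = rep y, s 1 = rep x, ... -/
noncomputable def orbS (F : ℝ → ℝ) (p : Torus) (n : ℕ) : ℝ := rep ((tmap F)^[n] p).2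

theorem orbS_succ (F : ℝ → ℝ) (p : Torus) (n : ℕ) :
    orbS F p (n + 1) = rep ((tmap F)^[n] p).1 := by
  unfold orbS
  rw [Function.iterate_succ_apply']
  rfl

theorem orbS_orb (F : ℝ → ℝ) (p : Torus) : Orb F (orbS F p) := by
  refine ⟨fun n => rep_mem _, fun n => ?_⟩
  have h1 : orbS F p (n + 2) = rep (tmap F ((tmap F)^[n] p)).1 := by
    rw [orbS_succ, Function.iterate_succ_apply']
  rw [h1, orbS_succ]
  exact tmap_rep F _

end Pool.Agent.LibEye
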