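import Pool.Agent.LibEye.Outer
import Pool.Agent.LibEye.Rep
/-! Row C09: the lift. PLAN. lift_proj by induction (F_per: the lift and the representatives differ by multiples of 2π).
dF_lift: dF_per. fderiv of liftMap F at q: (ξ, η) ↦ (deriv F q.1 ξ - η, ξ); fderiv_lift_succ: chain rule with
`Function.iterate_succ'`, everything differentiable (F is C¹, liftMap F is C¹, iterates C¹: ContDiff.iterate).
tan_seq: v n := fderiv (T^n) q (ξ₁, ξ₀); ξ 0 = ξ₀, ξ (n+1) = (v n).1 and (v n).2 = ξ n. -/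
set_option autoImplicit false
open Real Set MeasureTheory Filter
namespace Pool.Agent.LibEye
variable {F u : ℝ → ℝ} {d : ℤ} {a b κ : ℝ}

private theorem C09_rep (x : Circ) (y : ℝ) (h : (y : Circ) = x) : ∃ k : ℤ, rep x = y + 2 * π * k := by
  rw [← h]
  exact exists_int y

private theorem C09_F (H : EyeHyp F u d a b κ) (x : Circ) (y : ℝ) (h : (y : Circ) = x) :
    ((F (rep x) : ℝ) : Circ) = ((F y : ℝ) : Circ) := by
  obtain ⟨k, hk⟩ := C09_rep x y h
  rw [hk, F_per H]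
  have h1 := coe_add_int (F y) (d * k)
  rw [← h1]
  push_cast
  rfl

theorem lift_proj (H : EyeHyp F u d a b κ) (p : Torus) (n : ℕ) :
    ((((liftMap F)^[n] (rep p.1, rep p.2)).1 : ℝ) : Circ) = ((tmap F)^[n] p).1 ∧
    ((((liftMap F)^[n] (rep p.1, rep p.2)).2 : ℝ) : Circ) = ((tmap F)^[n] p).2 := by
  induction n with
  | zero => exact ⟨coe_rep p.1, coe_rep p.2⟩
  | succ n ih =>
    rw [Function.iterate_succ_apply', Function.iterate_succ_apply']
    refine ⟨?_, ih.1⟩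
    show ((F ((liftMap F)^[n] (rep p.1, rep p.2)).1 - ((liftMap F)^[n] (rep p.1, rep p.2)).2 : ℝ) : Circ) =
      ((F (rep ((tmap F)^[n] p).1) : ℝ) : Circ) - ((tmap F)^[n] p).2
    rw [C09_F H _ _ ih.1, AddCircle.coe_sub, ih.2]

theorem dF_lift (H : EyeHyp F u d a b κ) (p : Torus) (n : ℕ) :
    deriv F ((liftMap F)^[n] (rep p.1, rep p.2)).1 = deriv F (orbS F p (n + 1)) := by
  obtain ⟨k, hk⟩ := C09_rep _ _ (lift_proj H p n).1
  rw [orbS_succ, hk, dF_per H]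

private theorem C09_fd (H : EyeHyp F u d a b κ) (q : ℝ × ℝ) :
    HasFDerivAt (liftMap F) (((deriv F q.1) • ContinuousLinearMap.fst ℝ ℝ ℝ -
      ContinuousLinearMap.snd ℝ ℝ ℝ).prod (ContinuousLinearMap.fst ℝ ℝ ℝ)) q := by
  have hd : HasDerivAt F (deriv F q.1) q.1 :=
    ((H.hF.differentiable one_ne_zero) q.1).hasDerivAt
  have h1 : HasFDerivAt (fun p : ℝ × ℝ => F p.1) ((deriv F q.1) • ContinuousLinearMap.fst ℝ ℝ ℝ) q :=
    hd.comp_hasFDerivAt q hasFDerivAt_fst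
  exact (h1.sub hasFDerivAt_snd).prodMk hasFDerivAt_fst

private theorem C09_diff (H : EyeHyp F u d a b κ) (n : ℕ) : Differentiable ℝ ((liftMap F)^[n]) := by
  have h : Differentiable ℝ (liftMap F) := fun q => (C09_fd H q).differentiableAt
  exact h.iterate n

theorem fderiv_lift_succ (H : EyeHyp F u d a b κ) (q w : ℝ × ℝ) (n : ℕ) :
    fderiv ℝ ((liftMap F)^[n + 1]) q w =
      (deriv F ((liftMap F)^[n] q).1 * (fderiv ℝ ((liftMap F)^[n]) q w).1 -
        (fderiv ℝ ((liftMap F)^[n]) q w).2, (fderiv ℝ ((liftMap F)^[n]) q w).1) := by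
  have h1 : HasFDerivAt ((liftMap F)^[n]) (fderiv ℝ ((liftMap F)^[n]) q) q :=
    (C09_diff H n q).hasFDerivAt
  have h2 := (C09_fd H ((liftMap F)^[n] q)).comp q h1
  rw [Function.iterate_succ', h2.fderiv]
  rfl

theorem tan_seq (H : EyeHyp F u d a b κ) (p : Torus) (x₁ x₀ : ℝ) : ∃ ξ : ℕ → ℝ, ξ 0 = x₀ ∧ ξ 1 = x₁ ∧
    (∀ n, ξ (n + 2) = deriv F (orbS F p (n + 1)) * ξ (n + 1) - ξ n) ∧
    ∀ n, fderiv ℝ ((liftMap F)^[n]) (rep p.1, rep p.2) (x₁, x₀) = (ξ (n + 1), ξ n) := by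
  let V : ℕ → ℝ × ℝ := fun n => fderiv ℝ ((liftMap F)^[n]) (rep p.1, rep p.2) (x₁, x₀)
  have hV0 : V 0 = (x₁, x₀) := by
    show fderiv ℝ ((liftMap F)^[0]) (rep p.1, rep p.2) (x₁, x₀) = (x₁, x₀)
    rw [Function.iterate_zero, fderiv_id]
    rfl
  have hVs : ∀ n, V (n + 1) = (deriv F (orbS F p (n + 1)) * (V n).1 - (V n).2, (V n).1) := by
    intro n
    have h1 := fderiv_lift_succ H (rep p.1, rep p.2) (x₁, x₀) n
    rw [dF_lift H p n] at h1
    exact h1
  let ξ : ℕ → ℝ := fun n => Nat.casesOn n x₀ (fun m => (V m).1)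
  have h2 : ∀ n, (V n).2 = ξ n := by
    intro n
    cases n with
    | zero => exact congrArg Prod.snd hV0
    | succ n => exact congrArg Prod.snd (hVs n)
  refine ⟨ξ, rfl, ?_, ?_, ?_⟩
  · show (V 0).1 = x₁
    rw [hV0]
  · intro n
    show (V (n + 1)).1 = deriv F (orbS F p (n + 1)) * (V n).1 - ξ n
    rw [hVs n, ← h2 n]
  · intro n
    show V n = ((V n).1, ξ n)
    rw [← h2 n]

end Pool.Agent.LibEye
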