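import Pool.Agent.LibEye.Defs
/-! Row C01: facts on the link u on [-a, a].
PLAN. u_strict: derivative > 1/κ > 0 in the interior (`strictMonoOn_of_deriv_pos`). u_maps: strict monotone and u (±a) = ±a.
inv_icc: endpoints by hua, hua'. F_icc: endpoints by hodd, hFa, hua, hua'. dF_in: both sides of hFu have derivatives at x (Ioo
open, `Filter.EventuallyEq.deriv_eq`). du_inv: differentiate u (-u x) = -x the same way (chain rule), u x ∈ Ioo by u_maps. -/
set_option autoImplicit false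
open Real Set
namespace Pool.Agent.LibEye
variable {F u : ℝ → ℝ} {d : ℤ} {a b κ : ℝ}

private theorem C01_neg {x : ℝ} (hx : x ∈ Ioo (-a) a) : -x ∈ Ioo (-a) a :=
  ⟨neg_lt_neg hx.2, by linarith [hx.1]⟩

private theorem C01_cases {x : ℝ} (hx : x ∈ Icc (-a) a) : x = -a ∨ x = a ∨ x ∈ Ioo (-a) a := by
  rcases eq_or_lt_of_le hx.1 with h | h
  · exact Or.inl h.symm
  · rcases eq_or_lt_of_le hx.2 with h' | h'
    · exact Or.inr (Or.inl h')
    · exact Or.inr (Or.inr ⟨h, h'⟩)

theorem u_strict (H : EyeHyp F u d a b κ) : StrictMonoOn u (Icc (-a) a) := by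
  refine strictMonoOn_of_deriv_pos (convex_Icc _ _) H.hcu.continuousOn fun x hx => ?_
  rw [interior_Icc] at hx
  exact lt_trans (one_div_pos.2 (lt_trans one_pos H.hκ)) (H.hlow x hx)

theorem u_maps (H : EyeHyp F u d a b κ) {x : ℝ} (hx : x ∈ Ioo (-a) a) : u x ∈ Ioo (-a) a := by
  have ha : -a ≤ a := by linarith [H.ha]
  have h1 := u_strict H (left_mem_Icc.2 ha) (Ioo_subset_Icc_self hx) hx.1
  have h2 := u_strict H (Ioo_subset_Icc_self hx) (right_mem_Icc.2 ha) hx.2
  rw [H.hua'] at h1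
  rw [H.hua] at h2
  exact ⟨h1, h2⟩

theorem u_maps_icc (H : EyeHyp F u d a b κ) {x : ℝ} (hx : x ∈ Icc (-a) a) : u x ∈ Icc (-a) a := by
  have ha : -a ≤ a := by linarith [H.ha]
  rcases C01_cases hx with rfl | rfl | hx'
  · rw [H.hua']
    exact left_mem_Icc.2 ha
  · rw [H.hua]
    exact right_mem_Icc.2 ha
  · exact Ioo_subset_Icc_self (u_maps H hx')

theorem inv_icc (H : EyeHyp F u d a b κ) {x : ℝ} (hx : x ∈ Icc (-a) a) : u (-u x) = -x := by
  rcases C01_cases hx with rfl | rfl | hx'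
  · rw [H.hua', neg_neg, H.hua]
  · rw [H.hua, H.hua']
  · exact H.hinv x hx'

theorem F_icc (H : EyeHyp F u d a b κ) {x : ℝ} (hx : x ∈ Icc (-a) a) : F x = u x - u (-x) := by
  rcases C01_cases hx with rfl | rfl | hx'
  · rw [H.hodd, H.hFa, H.hua', neg_neg, H.hua]
    ring
  · rw [H.hFa, H.hua, H.hua']
    ring
  · exact H.hFu x hx'

theorem dF_in (H : EyeHyp F u d a b κ) {x : ℝ} (hx : x ∈ Ioo (-a) a) :
    deriv F x = deriv u x + deriv u (-x) := by
  have h1 : HasDerivAt u (deriv u x) x := (H.hu x hx).hasDerivAt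
  have h2 : HasDerivAt (fun y => u (-y)) (deriv u (-x) * (-1)) x :=
    HasDerivAt.comp x (H.hu (-x) (C01_neg hx)).hasDerivAt (hasDerivAt_neg x)
  have h3 : HasDerivAt (fun y => u y - u (-y)) (deriv u x - deriv u (-x) * (-1)) x := h1.sub h2
  have h4 : F =ᶠ[nhds x] fun y => u y - u (-y) := by
    filter_upwards [isOpen_Ioo.mem_nhds hx] with y hy
    exact H.hFu y hy
  rw [h4.deriv_eq, h3.deriv]
  ring

theorem du_inv (H : EyeHyp F u d a b κ) {x : ℝ} (hx : x ∈ Ioo (-a) a) :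
    deriv u (-u x) * deriv u x = 1 := by
  have h1 : HasDerivAt u (deriv u x) x := (H.hu x hx).hasDerivAt
  have h2 : HasDerivAt (fun y => u (-u y)) (deriv u (-u x) * (-deriv u x)) x :=
    HasDerivAt.comp x (H.hu (-u x) (C01_neg (u_maps H hx))).hasDerivAt h1.neg
  have h3 : HasDerivAt (fun y => u (-u y)) (-1) x := by
    refine (hasDerivAt_neg x).congr_of_eventuallyEq ?_
    filter_upwards [isOpen_Ioo.mem_nhds hx] with y hy
    exact H.hinv y hy
  have h4 := h2.unique h3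
  linarith

/-- -u(-x) < x on (-a, a) -/
theorem v_lt (H : EyeHyp F u d a b κ) {x : ℝ} (hx : x ∈ Ioo (-a) a) : -u (-x) < x := by
  have h1 := H.hup (-x) (C01_neg hx)
  linarith

end Pool.Agent.LibEye
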