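import Pool.Agent.LibEye.Defs
/-! Row C05: growth of the quadratic form Q = ρ ξ. Pure algebra of real sequences.
PLAN. ρ n := ξ (n+1) - σ n ξ n, α n = D n - σ (n+1), β n = α n σ n - 1 ≥ 0. ρ (n+1) = α n ρ n + β n ξ n, ξ (n+1) = ρ n + σ n ξ n, so
ρ (n+1) ξ (n+1) = α ρ² + (α σ + β) ρ ξ + β σ ξ² ≥ (1 + 2 β) ρ ξ (α > 0). Induction. -/
set_option autoImplicit false
open Real Set
namespace Pool.Agent.LibEye

theorem q_growth {ξ σ D : ℕ → ℝ} (hσ : ∀ n, 0 < σ n) (hs : ∀ n, 1 / σ n + σ (n + 1) ≤ D n)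
    (hξ : ∀ n, ξ (n + 2) = D n * ξ (n + 1) - ξ n) (h0 : 0 < ξ 0) (h1 : 0 < ξ 1 - σ 0 * ξ 0) (n : ℕ) :
    0 < ξ n ∧ 0 < ξ (n + 1) - σ n * ξ n ∧
    (ξ 1 - σ 0 * ξ 0) * ξ 0 * ∏ k ∈ Finset.range n, (1 + 2 * ((D k - σ (k + 1)) * σ k - 1)) ≤
      (ξ (n + 1) - σ n * ξ n) * ξ n := by
  induction n with
  | zero =>
    refine ⟨h0, h1, ?_⟩
    rw [Finset.prod_range_zero, mul_one]
  | succ n ih =>
    obtain ⟨hx, hr, hP⟩ := ih
    obtain ⟨x, hxe⟩ : ∃ x, x = ξ n := ⟨_, rfl⟩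
    obtain ⟨r, hre⟩ : ∃ r, r = ξ (n + 1) - σ n * ξ n := ⟨_, rfl⟩
    obtain ⟨a, hae⟩ : ∃ a, a = D n - σ (n + 1) := ⟨_, rfl⟩
    obtain ⟨s, hse⟩ : ∃ s, s = σ n := ⟨_, rfl⟩
    have hs0 : 0 < s := hse ▸ hσ n
    have ha1 : 1 / s ≤ a := by
      have := hs n
      rw [hae, hse]
      linarith
    have ha0 : 0 < a := lt_of_lt_of_le (by positivity) ha1
    have hb : 0 ≤ a * s - 1 := by
      have h2 : 1 / s * s ≤ a * s := mul_le_mul_of_nonneg_right ha1 hs0.le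
      rw [one_div, inv_mul_cancel₀ hs0.ne'] at h2
      linarith
    rw [← hxe] at hx
    rw [← hre] at hr
    rw [← hre, ← hxe] at hP
    have e1 : ξ (n + 1) = r + s * x := by rw [hre, hse, hxe]; ring
    have e2 : ξ (n + 1 + 1) - σ (n + 1) * ξ (n + 1) = a * r + (a * s - 1) * x := by
      have h3 : ξ (n + 1 + 1) = D n * ξ (n + 1) - ξ n := hξ n
      rw [h3, ← hxe, e1, hae]
      ring
    have hx1 : 0 < ξ (n + 1) := by rw [e1]; positivity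
    have hr1 : 0 < a * r + (a * s - 1) * x := by
      have : 0 ≤ (a * s - 1) * x := mul_nonneg hb hx.le
      have : 0 < a * r := mul_pos ha0 hr
      linarith
    refine ⟨hx1, by rw [e2]; exact hr1, ?_⟩
    rw [Finset.prod_range_succ, e2, e1, ← hae, ← hse]
    have hc : 0 ≤ 1 + 2 * (a * s - 1) := by linarith
    have h4 := mul_le_mul_of_nonneg_right hP hc
    have h5 : r * x * (1 + 2 * (a * s - 1)) ≤ (a * r + (a * s - 1) * x) * (r + s * x) := by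
      have h6 : (a * r + (a * s - 1) * x) * (r + s * x) - r * x * (1 + 2 * (a * s - 1)) =
          a * r ^ 2 + (a * s - 1) * s * x ^ 2 := by ring
      have h7 : 0 ≤ a * r ^ 2 := by positivity
      have h8 : 0 ≤ (a * s - 1) * s * x ^ 2 :=
        mul_nonneg (mul_nonneg hb hs0.le) (sq_nonneg x)
      linarith
    calc _ = (ξ 1 - σ 0 * ξ 0) * ξ 0 *
          (∏ k ∈ Finset.range n, (1 + 2 * ((D k - σ (k + 1)) * σ k - 1))) *
          (1 + 2 * (a * s - 1)) := by ring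
      _ ≤ r * x * (1 + 2 * (a * s - 1)) := h4
      _ ≤ _ := h5

end Pool.Agent.LibEye
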