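import Pool.Agent.LibEye.Cone
import Pool.Agent.LibEye.QGrowth
import Pool.Agent.LibEye.Lift
/-! Row C10: positive exponent from positive frequency of the gain. PLAN. s = orbS F p, σ n := sg (s n) (s (n+1)), D n := deriv F (s (n+1)).
p ∈ Good: star and sg_pos apply for all n (orbS_succ; rep of T^n p .2 = s n; tmap_rep / orbS_orb for the relation), so
bet (T^n p) = (D n - σ (n+1)) σ n - 1 ≥ 0. tan_seq with x₁ = σ 0 + 1, x₀ = 1; q_growth: (ξ (n+1) - σ n ξ n) ξ n ≥ ∏ (1 + 2 bet (T^k p)) ≥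
exp (∑_(k<n) phi (T^k p)) (log (1+2β) ≥ phi). Sup norm on ℝ×ℝ: ‖(ξ (n+1), ξ n)‖² ≥ ξ (n+1) ξ n ≥ the left side (σ ξ ≥ 0). So
log ‖fderiv (T^n)‖ ≥ (1/2) ∑ phi - log ‖(x₁, x₀)‖. If n < k ∑ phi frequently then the quotient is ≥ 1/(2k) - C/n ≥ 1/(4k)
frequently: `Filter.le_limsup_of_frequently_le` in EReal. -/
set_option autoImplicit false
open Real Set MeasureTheory Filter
namespace Pool.Agent.LibEye
variable {F u : ℝ → ℝ} {d : ℤ} {a b κ : ℝ}

private theorem C10_star (H : EyeHyp F u d a b κ) {p : Torus} (hp : p ∈ Good F u a) :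
    0 < sg F u a b κ (rep p.2) (rep p.1) ∧
    1 / sg F u a b κ (rep p.2) (rep p.1) + sg F u a b κ (rep p.1) (rep (tmap F p).1) <
      deriv F (rep p.1) := by
  obtain ⟨hy, hx, hE⟩ := hp
  obtain ⟨k, hk⟩ := tmap_rep F p
  exact ⟨sg_pos H (rep_abs _) hy,
    star H (rep_mem _) (rep_mem _) (rep_mem _) hk hy (hx 0) (hE 0)⟩

theorem bet_pos (H : EyeHyp F u d a b κ) {p : Torus} (hp : p ∈ Good F u a) : 0 < bet F u a b κ p := by
  obtain ⟨h1, h2⟩ := C10_star H hp
  unfold bet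
  have h3 : 1 / sg F u a b κ (rep p.2) (rep p.1) <
      deriv F (rep p.1) - sg F u a b κ (rep p.1) (rep (tmap F p).1) := by linarith
  have h4 := mul_lt_mul_of_pos_right h3 h1
  rw [one_div, inv_mul_cancel₀ h1.ne'] at h4
  linarith

theorem good_step (H : EyeHyp F u d a b κ) {p : Torus} (hp : p ∈ Good F u a) (n : ℕ) :
    (tmap F)^[n] p ∈ Good F u a := by
  obtain ⟨hy, hx, hE⟩ := hp
  refine ⟨?_, fun m => ?_, fun m => ?_⟩
  · cases n with
    | zero => exact hy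
    | succ n =>
      rw [Function.iterate_succ_apply']
      exact hx n
  · rw [← Function.iterate_add_apply]
    exact hx _
  · rw [← Function.iterate_add_apply]
    exact hE _

private theorem C10_norm (H : EyeHyp F u d a b κ) {p : Torus} (hp : p ∈ Good F u a) :
    ∃ C : ℝ, 1 ≤ C ∧ ∀ n : ℕ, Real.exp (∑ j ∈ Finset.range n, phi F u a b κ ((tmap F)^[j] p)) ≤
      (‖fderiv ℝ ((liftMap F)^[n]) (rep p.1, rep p.2)‖ * C) ^ 2 := by
  set s := orbS F p with hs
  set σ : ℕ → ℝ := fun n => sg F u a b κ (s n) (s (n + 1)) with hσ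
  set D : ℕ → ℝ := fun n => deriv F (s (n + 1)) with hD
  have hs0 : ∀ n, s n = rep ((tmap F)^[n] p).2 := fun n => rfl
  have hs1 : ∀ n, s (n + 1) = rep ((tmap F)^[n] p).1 := fun n => orbS_succ F p n
  have hs2 : ∀ n, s (n + 2) = rep (tmap F ((tmap F)^[n] p)).1 := by
    intro n
    rw [show n + 2 = (n + 1) + 1 from rfl, hs1, Function.iterate_succ_apply']
  have hstar : ∀ n, 0 < σ n ∧ 1 / σ n + σ (n + 1) < D n := by
    intro n
    have h1 := C10_star H (good_step H hp n)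
    rw [← hs0, ← hs1, ← hs2] at h1
    exact h1
  have hbet : ∀ n, bet F u a b κ ((tmap F)^[n] p) = (D n - σ (n + 1)) * σ n - 1 := by
    intro n
    unfold bet
    rw [← hs0, ← hs1, ← hs2]
  obtain ⟨ξ, hξ0, hξ1, hξ, hfd⟩ := tan_seq H p (σ 0 + 1) 1
  have hσ0 := (hstar 0).1
  have hgr := q_growth (ξ := ξ) (σ := σ) (D := D) (fun n => (hstar n).1) (fun n => (hstar n).2.le) hξ
    (by rw [hξ0]; exact one_pos) (by rw [hξ0, hξ1]; linarith)
  have hx1 : (ξ 1 - σ 0 * ξ 0) * ξ 0 = 1 := by rw [hξ0, hξ1]; ring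
  refine ⟨‖((σ 0 + 1, 1) : ℝ × ℝ)‖, ?_, fun n => ?_⟩
  · rw [Prod.norm_def]
    refine le_trans ?_ (le_max_right _ _)
    simp
  · obtain ⟨h1, h2, h3⟩ := hgr n
    rw [hx1, one_mul] at h3
    have h4 : Real.exp (∑ j ∈ Finset.range n, phi F u a b κ ((tmap F)^[j] p)) ≤
        ∏ k ∈ Finset.range n, (1 + 2 * ((D k - σ (k + 1)) * σ k - 1)) := by
      rw [Real.exp_sum]
      refine Finset.prod_le_prod (fun j _ => (Real.exp_pos _).le) fun j _ => ?_
      rw [← hbet j]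
      have h5 := bet_pos H (good_step H hp j)
      unfold phi
      rw [max_eq_left h5.le]
      have h6 : (0 : ℝ) < 1 + 2 * bet F u a b κ ((tmap F)^[j] p) := by linarith
      calc Real.exp (min (Real.log (1 + 2 * bet F u a b κ ((tmap F)^[j] p))) 1)
          ≤ Real.exp (Real.log (1 + 2 * bet F u a b κ ((tmap F)^[j] p))) :=
            Real.exp_le_exp.2 (min_le_left _ _)
        _ = 1 + 2 * bet F u a b κ ((tmap F)^[j] p) := Real.exp_log h6
    have h7 : (ξ (n + 1) - σ n * ξ n) * ξ n ≤ ξ (n + 1) * ξ n := by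
      have h8 : 0 ≤ σ n * ξ n * ξ n := mul_nonneg (mul_nonneg (hstar n).1.le h1.le) h1.le
      nlinarith
    have h9 : 0 < ξ (n + 1) := by
      have h8 : 0 ≤ σ n * ξ n := mul_nonneg (hstar n).1.le h1.le
      linarith
    have h10 : ξ (n + 1) * ξ n ≤ ‖((ξ (n + 1), ξ n) : ℝ × ℝ)‖ ^ 2 := by
      rw [Prod.norm_def, sq]
      have e1 : ξ (n + 1) ≤ max ‖ξ (n + 1)‖ ‖ξ n‖ := (le_abs_self _).trans (le_max_left _ _)
      have e2 : ξ n ≤ max ‖ξ (n + 1)‖ ‖ξ n‖ := (le_abs_self _).trans (le_max_right _ _)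
      exact mul_le_mul e1 e2 h1.le (h9.le.trans e1)
    have h11 : ‖((ξ (n + 1), ξ n) : ℝ × ℝ)‖ ≤
        ‖fderiv ℝ ((liftMap F)^[n]) (rep p.1, rep p.2)‖ * ‖((σ 0 + 1, 1) : ℝ × ℝ)‖ := by
      rw [← hfd n]
      exact ContinuousLinearMap.le_opNorm _ _
    calc Real.exp (∑ j ∈ Finset.range n, phi F u a b κ ((tmap F)^[j] p))
        ≤ _ := h4
      _ ≤ _ := h3
      _ ≤ _ := h7
      _ ≤ _ := h10
      _ ≤ _ := pow_le_pow_left₀ (norm_nonneg _) h11 2

theorem chi_pos (H : EyeHyp F u d a b κ) {p : Torus} (hp : p ∈ Good F u a) {k : ℕ} (hk : 0 < k)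
    (hf : ∃ᶠ n : ℕ in atTop, (n : ℝ) < k * ∑ j ∈ Finset.range n, phi F u a b κ ((tmap F)^[j] p)) :
    0 < chi F (rep p.1, rep p.2) := by
  obtain ⟨C, hC, hn⟩ := C10_norm H hp
  have hC0 : 0 < C := lt_of_lt_of_le one_pos hC
  have hk' : (0 : ℝ) < k := by exact_mod_cast hk
  have hlogC : 0 ≤ Real.log C := Real.log_nonneg hC
  have hlog : ∀ n : ℕ, (∑ j ∈ Finset.range n, phi F u a b κ ((tmap F)^[j] p)) / 2 - Real.log C ≤
      Real.log ‖fderiv ℝ ((liftMap F)^[n]) (rep p.1, rep p.2)‖ := by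
    intro n
    have h1 := hn n
    have h2 : 0 < (‖fderiv ℝ ((liftMap F)^[n]) (rep p.1, rep p.2)‖ * C) ^ 2 :=
      lt_of_lt_of_le (Real.exp_pos _) h1
    have h3 : 0 < ‖fderiv ℝ ((liftMap F)^[n]) (rep p.1, rep p.2)‖ := by
      rcases (norm_nonneg (fderiv ℝ ((liftMap F)^[n]) (rep p.1, rep p.2))).lt_or_eq with h | h
      · exact h
      · rw [← h] at h2
        simp at h2
    have h4 := Real.log_le_log (Real.exp_pos _) h1
    rw [Real.log_exp, Real.log_pow, Real.log_mul h3.ne' hC0.ne'] at h4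
    push_cast at h4
    linarith
  have hpos : (0 : EReal) < ((1 / (4 * k) : ℝ) : EReal) := by
    have : (0 : ℝ) < 1 / (4 * k) := by positivity
    exact_mod_cast this
  refine lt_of_lt_of_le hpos ?_
  unfold chi
  apply Filter.le_limsup_of_frequently_le
  · obtain ⟨N, hN⟩ := exists_nat_gt (4 * k * Real.log C)
    refine (hf.and_eventually (eventually_ge_atTop (N + 1))).mono ?_
    rintro n ⟨h1, h2⟩
    have hn0 : (0 : ℝ) < n := by
      have : 0 < n := by omega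
      exact_mod_cast this
    have hNn : (N : ℝ) ≤ n := by
      have : N ≤ n := by omega
      exact_mod_cast this
    rw [EReal.coe_le_coe_iff, div_le_div_iff₀ (by positivity) hn0]
    have h3 := hlog n
    nlinarith [mul_le_mul_of_nonneg_left h3 (by positivity : (0 : ℝ) ≤ 4 * k)]
  · isBoundedDefault

end Pool.Agent.LibEye
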