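import Pool.Agent.LibEye.Defs
/-! Row C06: a Birkhoff type lemma. PLAN. B := {x | ∀ k > 0, ∀ᶠ n, k * S_n φ x ≤ n} is measurable (countable operations) and T⁻¹ B = B
(S_(n+1) φ x = φ x + S_n φ (T x), 0 ≤ φ ≤ 1). ∫_B S_n φ = n ∫_B φ (∫_B φ∘T^j = ∫_(T^[j]⁻¹ B) φ∘T^j = ∫_B φ: MeasurePreserving.iterate,
`MeasurePreserving.setIntegral_preimage_emb` or integral_map on the indicator). On B S_n φ / n → 0, 0 ≤ S_n φ / n ≤ 1:
`tendsto_integral_of_dominated_convergence`, so ∫_B φ = 0 and φ = 0 a.e. on B. -/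
set_option autoImplicit false
open Real Set MeasureTheory Filter
namespace Pool.Agent.LibEye

private theorem C06_invariant {X : Type*} {T : X → X} {φ : X → ℝ} (x : X) :
    Tendsto (fun n : ℕ => (∑ j ∈ Finset.range n, φ (T^[j] (T x))) / (n : ℝ)) atTop (nhds 0) ↔
      Tendsto (fun n : ℕ => (∑ j ∈ Finset.range n, φ (T^[j] x)) / (n : ℝ)) atTop (nhds 0) := by
  have hS : ∀ n : ℕ, ∑ j ∈ Finset.range (n + 1), φ (T^[j] x) =
      φ x + ∑ j ∈ Finset.range n, φ (T^[j] (T x)) := by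
    intro n
    rw [Finset.sum_range_succ', add_comm]
    rfl
  have hr : Tendsto (fun n : ℕ => (n : ℝ) / ((n + 1 : ℕ) : ℝ)) atTop (nhds 1) := by
    have := tendsto_natCast_div_add_atTop (𝕜 := ℝ) (1 : ℝ)
    simpa using this
  have hr' : Tendsto (fun n : ℕ => ((n + 1 : ℕ) : ℝ) / (n : ℝ)) atTop (nhds 1) := by
    have := hr.inv₀ one_ne_zero
    simpa using this
  have h1 : Tendsto (fun n : ℕ => φ x / ((n + 1 : ℕ) : ℝ)) atTop (nhds 0) :=
    (tendsto_const_div_atTop_nhds_zero_nat (φ x)).comp (tendsto_add_atTop_nat 1)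
  have h1' : Tendsto (fun n : ℕ => φ x / (n : ℝ)) atTop (nhds 0) :=
    tendsto_const_div_atTop_nhds_zero_nat (φ x)
  rw [← tendsto_add_atTop_iff_nat (f := fun n : ℕ => (∑ j ∈ Finset.range n, φ (T^[j] x)) / (n : ℝ)) 1]
  constructor
  · intro h
    have h2 := h1.add (h.mul hr)
    rw [zero_mul, add_zero] at h2
    refine h2.congr' ?_
    filter_upwards [eventually_gt_atTop 0] with n hn
    have hn' : (n : ℝ) ≠ 0 := Nat.cast_ne_zero.2 hn.ne'
    have hn1 : ((n + 1 : ℕ) : ℝ) ≠ 0 := Nat.cast_ne_zero.2 (Nat.succ_ne_zero n)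
    rw [hS n]
    field_simp
  · intro h
    have h2 := (h.mul hr').sub h1'
    rw [zero_mul, sub_zero] at h2
    refine h2.congr' ?_
    filter_upwards [eventually_gt_atTop 0] with n hn
    have hn' : (n : ℝ) ≠ 0 := Nat.cast_ne_zero.2 hn.ne'
    have hn1 : ((n + 1 : ℕ) : ℝ) ≠ 0 := Nat.cast_ne_zero.2 (Nat.succ_ne_zero n)
    rw [hS n]
    field_simp
    ring

theorem birk_zero {X : Type*} [MeasurableSpace X] {ν : Measure X} [IsFiniteMeasure ν] {T : X → X}
    (hT : MeasurePreserving T ν ν) {φ : X → ℝ} (hφ : Measurable φ) (h0 : ∀ x, 0 ≤ φ x)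
    (h1 : ∀ x, φ x ≤ 1) :
    ∀ᵐ x ∂ν, 0 < φ x → ∃ k : ℕ, 0 < k ∧ ∃ᶠ n : ℕ in atTop,
      (n : ℝ) < k * ∑ j ∈ Finset.range n, φ (T^[j] x) := by
  set S : ℕ → X → ℝ := fun n x => ∑ j ∈ Finset.range n, φ (T^[j] x) with hSdef
  have hTj : ∀ j : ℕ, MeasurePreserving (T^[j]) ν ν := fun j => hT.iterate j
  have hφj : ∀ j : ℕ, Measurable (fun x => φ (T^[j] x)) := fun j => hφ.comp (hTj j).measurable
  have hSm : ∀ n, Measurable (S n) := fun n => Finset.measurable_fun_sum _ fun j _ => hφj j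
  set B : Set X := {x | Tendsto (fun n : ℕ => S n x / (n : ℝ)) atTop (nhds 0)} with hB
  have hBm : MeasurableSet B :=
    measurableSet_tendsto (nhds (0 : ℝ)) fun n => (hSm n).div_const _
  have hBT : T ⁻¹' B = B := by
    ext x
    exact C06_invariant x
  have hBj : ∀ j : ℕ, T^[j] ⁻¹' B = B := by
    intro j
    induction j with
    | zero => rfl
    | succ j ih =>
      rw [Function.iterate_succ, Set.preimage_comp, ih, hBT]
  have hint : ∀ j : ℕ, IntegrableOn (fun x => φ (T^[j] x)) B ν := by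
    intro j
    refine Integrable.integrableOn ?_
    refine Integrable.of_bound (hφj j).aestronglyMeasurable 1 (Eventually.of_forall fun x => ?_)
    rw [Real.norm_eq_abs, abs_of_nonneg (h0 _)]
    exact h1 _
  have hj : ∀ j : ℕ, ∫ x in B, φ (T^[j] x) ∂ν = ∫ x in B, φ x ∂ν := by
    intro j
    have h2 := setIntegral_map (μ := ν) (g := T^[j]) (f := φ) hBm hφ.aestronglyMeasurable
      (hTj j).measurable.aemeasurable
    rw [(hTj j).map_eq, hBj j] at h2
    exact h2.symm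
  have hSn : ∀ n : ℕ, ∫ x in B, S n x ∂ν = n * ∫ x in B, φ x ∂ν := by
    intro n
    have : ∫ x in B, S n x ∂ν = ∑ j ∈ Finset.range n, ∫ x in B, φ (T^[j] x) ∂ν :=
      integral_finsetSum _ fun j _ => hint j
    rw [this, Finset.sum_congr rfl fun j _ => hj j, Finset.sum_const, Finset.card_range,
      nsmul_eq_mul]
  have hlim : Tendsto (fun n : ℕ => ∫ x in B, S n x / (n : ℝ) ∂ν) atTop
      (nhds (∫ x in B, (0 : ℝ) ∂ν)) := by
    refine tendsto_integral_of_dominated_convergence (fun _ => (1 : ℝ)) ?_ ?_ ?_ ?_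
    · intro n
      exact ((hSm n).div_const _).aestronglyMeasurable
    · exact integrable_const _
    · intro n
      refine Eventually.of_forall fun x => ?_
      have hnn : 0 ≤ S n x := Finset.sum_nonneg fun j _ => h0 _
      have hle : S n x ≤ n := by
        calc S n x ≤ ∑ j ∈ Finset.range n, (1 : ℝ) := Finset.sum_le_sum fun j _ => h1 _
          _ = n := by simp
      rw [Real.norm_eq_abs, abs_of_nonneg (div_nonneg hnn (Nat.cast_nonneg n))]
      exact div_le_one_of_le₀ hle (Nat.cast_nonneg n)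
    · exact (ae_restrict_iff' hBm).2 (Eventually.of_forall fun x hx => hx)
  have hconst : ∀ᶠ n : ℕ in atTop, ∫ x in B, S n x / (n : ℝ) ∂ν = ∫ x in B, φ x ∂ν := by
    filter_upwards [eventually_gt_atTop 0] with n hn
    have hn' : (n : ℝ) ≠ 0 := Nat.cast_ne_zero.2 hn.ne'
    rw [integral_div, hSn n]
    field_simp
  have hzero : ∫ x in B, φ x ∂ν = 0 := by
    have h2 := hlim.congr' hconst
    rw [integral_zero] at h2
    exact tendsto_nhds_unique tendsto_const_nhds h2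
  have hae : φ =ᵐ[ν.restrict B] 0 :=
    (setIntegral_eq_zero_iff_of_nonneg_ae (Eventually.of_forall h0) (hint 0)).1 hzero
  have hae' := (ae_restrict_iff' hBm).1 hae
  filter_upwards [hae'] with x hx hpos
  by_contra hcon
  push Not at hcon
  refine hpos.ne' (hx ?_)
  show Tendsto (fun n : ℕ => S n x / (n : ℝ)) atTop (nhds 0)
  rw [Metric.tendsto_atTop]
  intro ε hε
  obtain ⟨k, hk⟩ := exists_nat_gt (1 / ε)
  have hk0 : 0 < k := by
    have : (0 : ℝ) < k := lt_trans (one_div_pos.2 hε) hk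
    exact_mod_cast this
  have hkR : (0 : ℝ) < k := Nat.cast_pos.2 hk0
  have h2 := hcon k hk0
  obtain ⟨N, hN⟩ := eventually_atTop.1 (h2.and (eventually_gt_atTop 0))
  refine ⟨N, fun n hn => ?_⟩
  obtain ⟨h3, h4⟩ := hN n hn
  have hnR : (0 : ℝ) < n := Nat.cast_pos.2 h4
  have hnn : 0 ≤ S n x := Finset.sum_nonneg fun j _ => h0 _
  rw [Real.dist_eq, sub_zero, abs_of_nonneg (div_nonneg hnn hnR.le), div_lt_iff₀ hnR]
  have h5 : (k : ℝ) * S n x ≤ n := h3
  have h6 : 1 < k * ε := by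
    rw [div_lt_iff₀ hε] at hk
    exact hk
  have h7 : (k : ℝ) * S n x < k * (ε * n) := by
    calc (k : ℝ) * S n x ≤ n := h5
      _ = 1 * n := (one_mul _).symm
      _ < (k * ε) * n := by
        exact mul_lt_mul_of_pos_right h6 hnR
      _ = k * (ε * n) := by ring
  exact lt_of_mul_lt_mul_left h7 hkR.le

end Pool.Agent.LibEye
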