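import Pool.Agent.LibEye.TMap
/-! Row C11: phi is measurable, with values in [0, 1]. PLAN. deriv F continuous (hF), `measurable_deriv u`, u continuous, so sg is a
measurable function of (y, x) (Measurable.ite with measurable sets, `measurableSet_lt` etc.); rep, tmap F measurable. -/
set_option autoImplicit false
open Real Set MeasureTheory Filter
namespace Pool.Agent.LibEye
variable {F u : ℝ → ℝ} {d : ℤ} {a b κ : ℝ}

theorem sg_meas (H : EyeHyp F u d a b κ) : Measurable (fun q : ℝ × ℝ => sg F u a b κ q.1 q.2) := by
  have hdF : Measurable (deriv F) := measurable_deriv F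
  have hdu : Measurable (deriv u) := measurable_deriv u
  have hu : Measurable u := H.hcu.measurable
  have hdF1 : Measurable (fun q : ℝ × ℝ => deriv F q.1) := hdF.comp measurable_fst
  have hu1 : Measurable (fun q : ℝ × ℝ => u q.1) := hu.comp measurable_fst
  have hdu1 : Measurable (fun q : ℝ × ℝ => deriv u q.1) := hdu.comp measurable_fst
  have hdu2 : Measurable (fun q : ℝ × ℝ => deriv u (-q.1)) := hdu.comp measurable_fst.neg
  unfold sg
  refine Measurable.ite (measurableSet_lt measurable_const (measurable_fst.abs)) ?_ ?_
  · exact hdF1.div_const 2
  refine Measurable.ite (measurableSet_lt measurable_const (measurable_snd.abs)) ?_ ?_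
  · exact measurable_const
  refine Measurable.ite (measurableSet_lt measurable_const measurable_fst) ?_ ?_
  · refine Measurable.ite (measurableSet_le measurable_snd measurable_fst) ?_ ?_
    · exact measurable_const
    · exact hdF1.sub measurable_const
  refine Measurable.ite (measurableSet_lt measurable_fst measurable_const) ?_ ?_
  · refine Measurable.ite (measurableSet_le measurable_fst measurable_snd) ?_ ?_
    · exact measurable_const
    · exact hdF1.sub measurable_const
  exact Measurable.ite (measurableSet_lt hu1 measurable_snd) hdu1 hdu2

theorem phi_meas (H : EyeHyp F u d a b κ) : Measurable (phi F u a b κ) := by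
  have hrep := measurable_rep
  have ht : Measurable (tmap F) := tmap_measurable H.hF.continuous.measurable
  have hsg := sg_meas H
  have hdF : Measurable (deriv F) := measurable_deriv F
  have h1 : Measurable (fun p : Torus => rep p.1) := hrep.comp measurable_fst
  have h2 : Measurable (fun p : Torus => rep p.2) := hrep.comp measurable_snd
  have h3 : Measurable (fun p : Torus => rep (tmap F p).1) :=
    hrep.comp (measurable_fst.comp ht)
  have h4 : Measurable (fun p : Torus => sg F u a b κ (rep p.1) (rep (tmap F p).1)) :=
    hsg.comp (h1.prodMk h3)
  have h5 : Measurable (fun p : Torus => sg F u a b κ (rep p.2) (rep p.1)) :=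
    hsg.comp (h2.prodMk h1)
  have h6 : Measurable (bet F u a b κ) :=
    (((hdF.comp h1).sub h4).mul h5).sub measurable_const
  have h7 : Measurable (fun p : Torus => 1 + 2 * max (bet F u a b κ p) 0) :=
    measurable_const.add (measurable_const.mul (h6.max measurable_const))
  exact (Real.measurable_log.comp h7).min measurable_const

theorem phi_nonneg (p : Torus) : 0 ≤ phi F u a b κ p := by
  unfold phi
  refine le_min ?_ zero_le_one
  apply Real.log_nonneg
  have := le_max_right (bet F u a b κ p) 0
  linarith

theorem phi_le_one (p : Torus) : phi F u a b κ p ≤ 1 := min_le_right _ _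

theorem phi_pos_of {p : Torus} (h : 0 < bet F u a b κ p) : 0 < phi F u a b κ p := by
  unfold phi
  refine lt_min ?_ zero_lt_one
  apply Real.log_pos
  have := le_max_left (bet F u a b κ p) 0
  linarith

end Pool.Agent.LibEye
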