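import Pool.Agent.LibEye.EyeA
import Pool.Agent.LibEye.EyeB
import Pool.Agent.LibEye.PhiMeas
import Pool.Agent.LibEye.Meas
import Pool.Agent.LibEye.Lyap
/-! Row C14: block (b) assembled. PLAN. good_ae, bet_pos, phi_pos_of, birk_zero for phi, chi_pos. -/
set_option autoImplicit false
open Real Set MeasureTheory Filter
namespace Pool.Agent.LibEye
variable {F u : ℝ → ℝ} {d : ℤ} {a b κ : ℝ}

theorem main_b (H : EyeHyp F u d a b κ) : ∀ᵐ p : Torus,
    p ∉ eye u a → 0 < chi F (rep p.1, rep p.2) := by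
  filter_upwards [good_ae H, birk_zero (tmap_mp H.hF.continuous.measurable) (phi_meas H) (phi_nonneg (F := F) (u := u) (a := a) (b := b) (κ := κ))
    (phi_le_one (F := F) (u := u) (a := a) (b := b) (κ := κ))] with p h1 h2 hp
  have hg := h1 hp
  obtain ⟨k, hk, hf⟩ := h2 (phi_pos_of (bet_pos H hg))
  exact chi_pos H hg hk hf

end Pool.Agent.LibEye
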