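import Pool.Agent.LibEye.Zero
/-! The symmetry F ↦ -F. -/
set_option autoImplicit false
open Real Set MeasureTheory Filter Topology
namespace Pool.Agent.LibEye
variable {F u : ℝ → ℝ} {d : ℤ} {a b κ : ℝ}

/-- reflection of the torus in the second coordinate -/
noncomputable def sT (p : Torus) : Torus := (p.1, -p.2)

/-- reflection of the plane in the second coordinate -/
def sP (q : ℝ × ℝ) : ℝ × ℝ := (q.1, -q.2)

theorem rep_neg {x : Circ} (hx : rep x ≠ -π) : rep (-x) = -rep x := by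
  have h := rep_mem x
  have h1 : -rep x ∈ Ico (-π) π := ⟨by linarith [h.2], by
    rcases lt_or_eq_of_le h.1 with h2 | h2
    · linarith
    · exact absurd h2.symm hx⟩
  have h2 := rep_coe h1
  rwa [AddCircle.coe_neg, coe_rep] at h2

theorem tmap_neg (H : EyeHyp F u d a b κ) (p : Torus) : tmap F (-p) = -tmap F p := by
  have h1 : ∃ k : ℤ, rep (-p.1) = -rep p.1 + 2 * π * k := by
    obtain ⟨k, hk⟩ := exists_int (-rep p.1)
    rw [AddCircle.coe_neg, coe_rep] at hk
    exact ⟨k, hk⟩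
  obtain ⟨k, hk⟩ := h1
  simp only [tmap, Prod.fst_neg, Prod.snd_neg, Prod.neg_mk]
  congr 1
  rw [hk, F_per H, H.hodd]
  have e := coe_add_int (-F (rep p.1)) (d * k)
  push_cast at e
  rw [e, AddCircle.coe_neg]
  abel

theorem tmap_negF (F : ℝ → ℝ) (p : Torus) : tmap (fun x => -F x) p = sT (-tmap F (sT p)) := by
  simp only [tmap, sT, Prod.fst_neg, Prod.snd_neg, Prod.neg_mk, neg_neg, neg_sub, sub_neg_eq_add]
  congr 1
  rw [AddCircle.coe_neg]; abel

theorem sT_sT (p : Torus) : sT (sT p) = p := by simp [sT]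

theorem liftMap_negF (F : ℝ → ℝ) (hodd : ∀ x, F (-x) = -F x) (q : ℝ × ℝ) (n : ℕ) :
    (liftMap (fun x => -F x))^[n] q = sP ((-1 : ℝ) ^ n • (liftMap F)^[n] (sP q)) := by
  induction n with
  | zero => simp [sP]
  | succ n ih =>
    rw [Function.iterate_succ_apply', Function.iterate_succ_apply', ih]
    set r := (liftMap F)^[n] (sP q)
    rcases neg_one_pow_eq_or ℝ n with h | h
    · simp only [pow_succ, h, liftMap, sP]
      ext <;> simp [hodd]; try ring
    · simp only [pow_succ, h, liftMap, sP]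
      ext <;> simp [hodd]; try ring


/-- `sP` as a continuous linear map -/
def sL : ℝ × ℝ →L[ℝ] ℝ × ℝ :=
  (ContinuousLinearMap.fst ℝ ℝ ℝ).prod (-ContinuousLinearMap.snd ℝ ℝ ℝ)

theorem sL_apply (q : ℝ × ℝ) : sL q = sP q := rfl

theorem sL_norm : ‖sL‖ ≤ 1 := by
  refine ContinuousLinearMap.opNorm_le_bound _ zero_le_one fun q => ?_
  rw [one_mul, sL_apply, sP, Prod.norm_def, Prod.norm_def, norm_neg]

theorem sL_sL (q : ℝ × ℝ) : sL (sL q) = q := by
  rw [sL_apply, sL_apply]; simp [sP]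

theorem norm_conj (A : ℝ × ℝ →L[ℝ] ℝ × ℝ) (c : ℝ) (hc : |c| = 1) :
    ‖sL.comp ((c • A).comp sL)‖ = ‖A‖ := by
  have h1 : ∀ B : ℝ × ℝ →L[ℝ] ℝ × ℝ, ‖sL.comp (B.comp sL)‖ ≤ ‖B‖ := by
    intro B
    calc ‖sL.comp (B.comp sL)‖ ≤ ‖sL‖ * ‖B.comp sL‖ := ContinuousLinearMap.opNorm_comp_le _ _
      _ ≤ 1 * (‖B‖ * 1) := by
          refine mul_le_mul sL_norm ?_ (norm_nonneg _) zero_le_one
          exact (ContinuousLinearMap.opNorm_comp_le _ _).trans
            (mul_le_mul_of_nonneg_left sL_norm (norm_nonneg _))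
      _ = ‖B‖ := by ring
  have h2 : ‖c • A‖ = ‖A‖ := by rw [norm_smul, Real.norm_eq_abs, hc, one_mul]
  refine le_antisymm ((h1 _).trans h2.le) ?_
  have h3 : sL.comp ((sL.comp ((c • A).comp sL)).comp sL) = c • A := by
    ext q <;> simp [sL_sL]
  calc ‖A‖ = ‖c • A‖ := h2.symm
    _ = ‖sL.comp ((sL.comp ((c • A).comp sL)).comp sL)‖ := by rw [h3]
    _ ≤ _ := h1 _

theorem chi_negF (H : EyeHyp F u d a b κ) (q : ℝ × ℝ) :
    chi (fun x => -F x) q = chi F (sP q) := by
  have key : ∀ n : ℕ, ‖fderiv ℝ ((liftMap (fun x => -F x))^[n]) q‖ =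
      ‖fderiv ℝ ((liftMap F)^[n]) (sP q)‖ := by
    intro n
    have hF : Differentiable ℝ (liftMap F) := by
      have h1 : Differentiable ℝ F := H.hF.differentiable (by norm_num)
      unfold liftMap
      fun_prop
    have hn : Differentiable ℝ ((liftMap F)^[n]) := hF.iterate n
    have e : (liftMap (fun x => -F x))^[n] =
        fun q => sL ((-1 : ℝ) ^ n • (liftMap F)^[n] (sL q)) := by
      funext q; rw [liftMap_negF F H.hodd]; rfl
    have h2 : HasFDerivAt (fun q => sL ((-1 : ℝ) ^ n • (liftMap F)^[n] (sL q)))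
        (sL.comp (((-1 : ℝ) ^ n • fderiv ℝ ((liftMap F)^[n]) (sL q)).comp sL)) q := by
      have h3 : HasFDerivAt ((liftMap F)^[n]) (fderiv ℝ ((liftMap F)^[n]) (sL q)) (sL q) :=
        (hn (sL q)).hasFDerivAt
      have h4 := (h3.comp q sL.hasFDerivAt).const_smul ((-1 : ℝ) ^ n)
      have h5 := sL.hasFDerivAt.comp q h4
      exact h5
    rw [e, h2.fderiv, norm_conj _ _ (by simp), sL_apply]
  unfold chi
  simp_rw [key]

/-- the eye is symmetric -/
theorem eye_neg (H : EyeHyp F u d a b κ) {p : Torus} (hp : p ∈ eye u a) : -p ∈ eye u a := by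
  obtain ⟨h1, h2, h3⟩ := hp
  have hapi : a < π := H.hab.trans (b_lt_pi H)
  have h4 : rep (-p).2 = -rep p.2 := rep_neg (by linarith [h1.1])
  have hm : u (rep p.2) ∈ Ioo (-a) a := u_maps H h1
  have hm' : u (-rep p.2) ∈ Ioo (-a) a := u_maps H ⟨by linarith [h1.2], by linarith [h1.1]⟩
  have h5 : rep (-p).1 = -rep p.1 := rep_neg (by linarith [hm'.2])
  refine ⟨?_, ?_, ?_⟩
  · rw [h4]; exact ⟨by linarith [h1.2], by linarith [h1.1]⟩
  · rw [h4, h5, neg_neg]; linarith
  · rw [h4, h5]; linarith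

theorem sT_mp : MeasurePreserving sT (volume : Measure Torus) volume := by
  have h := (MeasurePreserving.id (volume : Measure Circ)).prod
    (Measure.measurePreserving_neg (volume : Measure Circ))
  exact h

theorem sT_cont : Continuous sT := by
  unfold sT; fun_prop

/-- representatives of the reflected point, almost everywhere -/
theorem rep_sT : ∀ᵐ p : Torus, (rep (sT p).1, rep (sT p).2) = sP (rep p.1, rep p.2) := by
  have h := snd_null ((-π : ℝ) : Circ)
  rw [← compl_mem_ae_iff] at h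
  filter_upwards [h] with p hp
  have : rep p.2 ≠ -π := by
    intro h0
    apply hp
    show p.2 = _
    rw [← h0, coe_rep]
  simp only [sT, sP]
  rw [rep_neg this]

/-- everything for -F -/
theorem neg_all (H : EyeHyp F u d a b κ) :
    IsOpen (sT ⁻¹' eye u a) ∧
    tmap (fun x => -F x) ⁻¹' (sT ⁻¹' eye u a) = sT ⁻¹' eye u a ∧
    (0 : Torus) ∈ sT ⁻¹' eye u a ∧ tmap (fun x => -F x) 0 = 0 ∧ 0 < volume (sT ⁻¹' eye u a)ᶜ ∧
    (∀ᵐ p : Torus, p ∉ sT ⁻¹' eye u a → 0 < chi (fun x => -F x) (rep p.1, rep p.2)) ∧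
    (0 < volume {p : Torus | p ∈ eye u a ∧ chi F (rep p.1, rep p.2) = 0} →
      0 < volume {p : Torus | p ∈ sT ⁻¹' eye u a ∧ chi (fun x => -F x) (rep p.1, rep p.2) = 0}) := by
  have h0 : sT 0 = 0 := by simp [sT]
  refine ⟨(eye_open H).preimage sT_cont, ?_, ?_, ?_, ?_, ?_, ?_⟩
  · ext p
    simp only [mem_preimage]
    rw [tmap_negF, sT_sT]
    constructor
    · intro h
      have h1 := eye_neg H h
      rw [neg_neg] at h1
      have h2 : sT p ∈ tmap F ⁻¹' eye u a := h1
      rwa [eye_inv H] at h2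
    · intro h
      apply eye_neg H
      have h2 : sT p ∈ tmap F ⁻¹' eye u a := by rw [eye_inv H]; exact h
      exact h2
  · show sT 0 ∈ eye u a
    rw [h0]; exact (eye_zero H).1
  · rw [tmap_negF, h0, (eye_zero H).2, neg_zero, h0]
  · have h := sT_mp.measure_preimage (eye_open H).measurableSet.compl.nullMeasurableSet
    rw [← preimage_compl, h]
    exact eye_compl H
  · have h1 := sT_mp.quasiMeasurePreserving.ae (main_b H)
    filter_upwards [h1, rep_sT] with p hp hr hpe
    rw [chi_negF H, ← hr]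
    exact hp hpe
  · intro hz
    have h2 : volume (sT ⁻¹' (toMeasurable volume
        {p : Torus | p ∈ sT ⁻¹' eye u a ∧ chi (fun x => -F x) (rep p.1, rep p.2) = 0})) =
        volume {p : Torus | p ∈ sT ⁻¹' eye u a ∧ chi (fun x => -F x) (rep p.1, rep p.2) = 0} := by
      rw [sT_mp.measure_preimage (measurableSet_toMeasurable _ _).nullMeasurableSet,
        measure_toMeasurable]
    rw [← h2]
    refine hz.trans_le (measure_mono_ae ?_)
    filter_upwards [rep_sT] with p hr hp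
    apply subset_toMeasurable
    obtain ⟨hp1, hp2⟩ := hp
    refine ⟨?_, ?_⟩
    · show sT (sT p) ∈ eye u a
      rw [sT_sT]; exact hp1
    · rw [chi_negF H, hr]
      have e : sP (sP (rep p.1, rep p.2)) = (rep p.1, rep p.2) := by simp [sP]
      rw [e]; exact hp2

end Pool.Agent.LibEye
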