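import Pool.Agent.LibEye.MainB
/-! The standard map itself, and the theorem for it from `EyeHyp`. -/
set_option autoImplicit false
open Real Set MeasureTheory Filter
namespace Pool.Agent.LibEye
variable {F u : ℝ → ℝ} {d : ℤ} {a b κ : ℝ}

/-- the Standard map T_f of the torus with potential f(x) = E x + g(x): (x, y) ↦ (2x - y + f(x), x) -/
noncomputable def stdMap (E : ℤ) (g : ℝ → ℝ) (p : Torus) : Torus :=
  ((2 : ℤ) • p.1 - p.2 + (E • p.1 + ((g (rep p.1) : ℝ) : Circ)), p.1)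

/-- its lift to the plane -/
def stdLift (E : ℤ) (g : ℝ → ℝ) (q : ℝ × ℝ) : ℝ × ℝ := (2 * q.1 - q.2 + (E * q.1 + g q.1), q.1)

/-- the pointwise Lyapunov exponent limsup (1/n) log ‖D T_f^n(p)‖ -/
noncomputable def lyap (E : ℤ) (g : ℝ → ℝ) (p : Torus) : EReal :=
  limsup (fun n : ℕ =>
    ((Real.log ‖fderiv ℝ ((stdLift E g)^[n]) (rep p.1, rep p.2)‖ / n : ℝ) : EReal)) atTop

theorem stdLift_eq (E : ℤ) (g : ℝ → ℝ) :
    stdLift E g = liftMap (fun x => 2 * x + (E * x + g x)) := by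
  funext q; simp only [stdLift, liftMap]; congr 1; ring

theorem stdMap_eq (E : ℤ) (g : ℝ → ℝ) :
    stdMap E g = tmap (fun x => 2 * x + (E * x + g x)) := by
  funext p
  simp only [stdMap, tmap]
  congr 1
  have h1 : ((2 * rep p.1 + (E * rep p.1 + g (rep p.1)) : ℝ) : Circ)
      = (2 : ℤ) • p.1 + (E • p.1 + ((g (rep p.1) : ℝ) : Circ)) := by
    have e1 : ((2 * rep p.1 : ℝ) : Circ) = (2 : ℤ) • p.1 := by
      have := AddCircle.coe_zsmul (p := 2 * π) (n := (2 : ℤ)) (x := rep p.1)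
      rw [coe_rep] at this
      rw [← this]; congr 1; simp
    have e2 : ((E * rep p.1 : ℝ) : Circ) = E • p.1 := by
      have := AddCircle.coe_zsmul (p := 2 * π) (n := E) (x := rep p.1)
      rw [coe_rep] at this
      rw [← this]; congr 1; simp
    rw [← e1, ← e2, ← AddCircle.coe_add, ← AddCircle.coe_add]
  rw [h1]; abel

theorem lyap_eq (E : ℤ) (g : ℝ → ℝ) (p : Torus) :
    lyap E g p = chi (fun x => 2 * x + (E * x + g x)) (rep p.1, rep p.2) := by
  simp only [lyap, chi, stdLift_eq]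

/-- block (b) for the standard map -/
theorem std_of_eyeHyp (H : EyeHyp F u d a b κ) :
    ∃ g : ℝ → ℝ, (∀ x, F x = 2 * x + ((d - 2 : ℤ) * x + g x)) ∧ Function.Periodic g (2 * π) ∧
      IsOpen (eye u a) ∧ stdMap (d - 2) g ⁻¹' eye u a = eye u a ∧ (0 : Torus) ∈ eye u a ∧
      stdMap (d - 2) g 0 = 0 ∧ 0 < volume (eye u a)ᶜ ∧
      ∀ᵐ p : Torus, p ∉ eye u a → 0 < lyap (d - 2) g p := by
  refine ⟨fun x => F x - d * x, fun x => by push_cast; ring, fun x => ?_, eye_open H, ?_,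
    (eye_zero H).1, ?_, eye_compl H, ?_⟩
  · simp only [H.hper x]; ring
  all_goals
    have hfun : (fun x : ℝ => 2 * x + (((d - 2 : ℤ) : ℝ) * x + (F x - d * x))) = F := by
      funext x; push_cast; ring
  · rw [stdMap_eq, hfun]; exact eye_inv H
  · rw [stdMap_eq, hfun]; exact (eye_zero H).2
  · have := main_b H
    filter_upwards [this] with p hp hpe
    rw [lyap_eq, hfun]; exact hp hpe

end Pool.Agent.LibEye
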