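import Pool.Agent.LibEye.Std
/-! From linear growth on a set of positive measure near 0 in the plane to zero exponents on a set of
positive measure in the eye. -/
set_option autoImplicit false
open Real Set MeasureTheory Filter Topology
namespace Pool.Agent.LibEye
variable {F u : ℝ → ℝ} {d : ℤ} {a b κ : ℝ}

private theorem Z_det (H : EyeHyp F u d a b κ) (q : ℝ × ℝ) (n : ℕ) :
    (fderiv ℝ ((liftMap F)^[n]) q (1, 0)).1 * (fderiv ℝ ((liftMap F)^[n]) q (0, 1)).2 -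
      (fderiv ℝ ((liftMap F)^[n]) q (1, 0)).2 * (fderiv ℝ ((liftMap F)^[n]) q (0, 1)).1 = 1 := by
  induction n with
  | zero =>
    have h : fderiv ℝ ((liftMap F)^[0]) q = ContinuousLinearMap.id ℝ (ℝ × ℝ) := by
      simp only [Function.iterate_zero]
      exact fderiv_id
    rw [h]; simp
  | succ n ih =>
    rw [fderiv_lift_succ H, fderiv_lift_succ H]
    simp only
    linear_combination ih

/-- the derivative of the n-th iterate has norm ≥ 1/√2 (its determinant is 1) -/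
theorem norm_fderiv_ge (H : EyeHyp F u d a b κ) (q : ℝ × ℝ) (n : ℕ) :
    1 / 2 ≤ ‖fderiv ℝ ((liftMap F)^[n]) q‖ ^ 2 := by
  have hd := Z_det H q n
  set A := fderiv ℝ ((liftMap F)^[n]) q with hA
  have h1 : ‖A (1, 0)‖ ≤ ‖A‖ := by
    have := A.le_opNorm (1, 0)
    have e : ‖((1 : ℝ), (0 : ℝ))‖ = 1 := by simp [Prod.norm_def]
    rwa [e, mul_one] at this
  have h2 : ‖A (0, 1)‖ ≤ ‖A‖ := by
    have := A.le_opNorm (0, 1)
    have e : ‖((0 : ℝ), (1 : ℝ))‖ = 1 := by simp [Prod.norm_def]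
    rwa [e, mul_one] at this
  have h11 : |(A (1, 0)).1| ≤ ‖A‖ := (norm_fst_le (A (1, 0))).trans h1
  have h12 : |(A (1, 0)).2| ≤ ‖A‖ := (norm_snd_le (A (1, 0))).trans h1
  have h21 : |(A (0, 1)).1| ≤ ‖A‖ := (norm_fst_le (A (0, 1))).trans h2
  have h22 : |(A (0, 1)).2| ≤ ‖A‖ := (norm_snd_le (A (0, 1))).trans h2
  have h0 : 0 ≤ ‖A‖ := norm_nonneg A
  have e1 : |(A (1, 0)).1 * (A (0, 1)).2| ≤ ‖A‖ ^ 2 := by
    rw [abs_mul, sq]; exact mul_le_mul h11 h22 (abs_nonneg _) h0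
  have e2 : |(A (1, 0)).2 * (A (0, 1)).1| ≤ ‖A‖ ^ 2 := by
    rw [abs_mul, sq]; exact mul_le_mul h12 h21 (abs_nonneg _) h0
  have e3 := le_abs_self ((A (1, 0)).1 * (A (0, 1)).2)
  have e4 := neg_abs_le ((A (1, 0)).2 * (A (0, 1)).1)
  linarith

theorem chi_zero (H : EyeHyp F u d a b κ) {q : ℝ × ℝ} {C : ℝ}
    (hC : ∀ n : ℕ, ‖fderiv ℝ ((liftMap F)^[n]) q‖ ≤ C * (n + 1)) : chi F q = 0 := by
  have hpos : ∀ n : ℕ, 0 < ‖fderiv ℝ ((liftMap F)^[n]) q‖ := by
    intro n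
    have h := norm_fderiv_ge H q n
    have h0 := norm_nonneg (fderiv ℝ ((liftMap F)^[n]) q)
    rcases h0.lt_or_eq with h1 | h1
    · exact h1
    · rw [← h1] at h; norm_num at h
  have hC0 : 0 < C := by
    have := (hpos 0).trans_le (hC 0)
    simpa using this
  have hlow : ∀ n : ℕ, -Real.log 2 / 2 ≤ Real.log ‖fderiv ℝ ((liftMap F)^[n]) q‖ := by
    intro n
    have h := Real.log_le_log (by norm_num) (norm_fderiv_ge H q n)
    rw [Real.log_pow, one_div, Real.log_inv] at h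
    push_cast at h
    linarith
  have hup : ∀ n : ℕ, Real.log ‖fderiv ℝ ((liftMap F)^[n]) q‖ ≤ Real.log C + Real.log (n + 1) := by
    intro n
    rw [← Real.log_mul hC0.ne' (by positivity)]
    exact Real.log_le_log (hpos n) (hC n)
  have hn0 : Tendsto (fun n : ℕ => (n : ℝ)) atTop atTop := tendsto_natCast_atTop_atTop
  have hn1 : Tendsto (fun n : ℕ => (n : ℝ) + 1) atTop atTop :=
    tendsto_atTop_add_const_right _ _ hn0
  have hinv : Tendsto (fun n : ℕ => ((n : ℝ))⁻¹) atTop (𝓝 0) := hn0.inv_tendsto_atTop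
  have hlog : Tendsto (fun n : ℕ => Real.log ((n : ℝ) + 1) / ((n : ℝ) + 1)) atTop (𝓝 0) :=
    (Real.isLittleO_log_id_atTop.tendsto_div_nhds_zero).comp hn1
  have hlogn : Tendsto (fun n : ℕ => Real.log ((n : ℝ) + 1) / (n : ℝ)) atTop (𝓝 0) := by
    have h2 : Tendsto (fun n : ℕ => (1 : ℝ) + ((n : ℝ))⁻¹) atTop (𝓝 (1 + 0)) :=
      tendsto_const_nhds.add hinv
    have h3 := hlog.mul h2
    simp only [zero_mul] at h3
    refine h3.congr' ?_
    filter_upwards [eventually_gt_atTop 0] with n hn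
    have hn' : (0 : ℝ) < n := by exact_mod_cast hn
    field_simp
  have hlim : Tendsto (fun n : ℕ => Real.log ‖fderiv ℝ ((liftMap F)^[n]) q‖ / n) atTop (𝓝 0) := by
    have hl : Tendsto (fun n : ℕ => (-Real.log 2 / 2) * ((n : ℝ))⁻¹) atTop (𝓝 0) := by
      simpa using hinv.const_mul (-Real.log 2 / 2)
    have hu : Tendsto (fun n : ℕ => Real.log C * ((n : ℝ))⁻¹ + Real.log ((n : ℝ) + 1) / (n : ℝ))
        atTop (𝓝 0) := by
      have := (hinv.const_mul (Real.log C)).add hlogn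
      simpa using this
    refine tendsto_of_tendsto_of_tendsto_of_le_of_le hl hu ?_ ?_
    · intro n
      show _ ≤ Real.log _ / (n : ℝ)
      rw [div_eq_mul_inv _ (n : ℝ)]
      exact mul_le_mul_of_nonneg_right (hlow n) (by positivity)
    · intro n
      show Real.log _ / (n : ℝ) ≤ Real.log C * ((n : ℝ))⁻¹ + Real.log ((n : ℝ) + 1) / (n : ℝ)
      rw [div_eq_mul_inv, div_eq_mul_inv, ← add_mul]
      exact mul_le_mul_of_nonneg_right (hup n) (by positivity)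
  unfold chi
  have := (EReal.tendsto_coe.2 hlim).limsup_eq
  simpa using this

theorem torus_pos {S : Set (ℝ × ℝ)} (hS : ∀ q ∈ S, ‖q‖ < π) (h : 0 < volume S) :
    0 < volume {p : Torus | (rep p.1, rep p.2) ∈ S} := by
  set P : Set Torus := {p : Torus | (rep p.1, rep p.2) ∈ S} with hP
  have hmk := AddCircle.measurePreserving_mk (2 * π) (-π)
  have hmp : MeasurePreserving (Prod.map (fun x : ℝ => (x : Circ)) (fun x : ℝ => (x : Circ)))
      ((volume.restrict (Ioc (-π) (-π + 2 * π))).prod (volume.restrict (Ioc (-π) (-π + 2 * π))))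
      ((volume : Measure Circ).prod (volume : Measure Circ)) := hmk.prod hmk
  rw [Measure.prod_restrict] at hmp
  have hI : MeasurableSet (Ioc (-π) (-π + 2 * π) ×ˢ Ioc (-π) (-π + 2 * π)) :=
    measurableSet_Ioc.prod measurableSet_Ioc
  have hm : MeasurableSet (toMeasurable volume P) := measurableSet_toMeasurable _ _
  have h1 := hmp.measure_preimage hm.nullMeasurableSet
  have h1' : volume ((Prod.map (fun x : ℝ => (x : Circ)) (fun x : ℝ => (x : Circ)) ⁻¹'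
      toMeasurable volume P) ∩ (Ioc (-π) (-π + 2 * π) ×ˢ Ioc (-π) (-π + 2 * π))) = volume P := by
    rw [← measure_toMeasurable P, ← Measure.restrict_apply' hI]
    exact h1
  rw [← h1']
  refine h.trans_le ?_
  refine measure_mono fun q hq => ?_
  have hq1 := hS q hq
  have hqa : |q.1| < π := (norm_fst_le q).trans_lt hq1
  have hqb : |q.2| < π := (norm_snd_le q).trans_lt hq1
  rw [abs_lt] at hqa hqb
  refine ⟨subset_toMeasurable volume P ?_, ⟨⟨hqa.1, by linarith [hqa.2]⟩, ⟨hqb.1, by linarith [hqb.2]⟩⟩⟩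
  show (rep ((q.1 : ℝ) : Circ), rep ((q.2 : ℝ) : Circ)) ∈ S
  rw [rep_coe ⟨hqa.1.le, hqa.2⟩, rep_coe ⟨hqb.1.le, hqb.2⟩]
  exact hq

theorem zero_pos (H : EyeHyp F u d a b κ)
    (h : ∀ ε > 0, 0 < volume {q : ℝ × ℝ | ‖q‖ < ε ∧ ∃ C : ℝ, ∀ n : ℕ,
      ‖fderiv ℝ ((fun p : ℝ × ℝ => (F p.1 - p.2, p.1))^[n]) q‖ ≤ C * (n + 1)}) :
    0 < volume {p : Torus | p ∈ eye u a ∧ chi F (rep p.1, rep p.2) = 0} := by
  have h0 : u 0 > 0 := by
    have := H.hup 0 ⟨by linarith [H.ha], H.ha⟩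
    simpa using this
  have hapi : a < π := H.hab.trans (b_lt_pi H)
  have hopen : IsOpen {q : ℝ × ℝ | q.2 ∈ Ioo (-a) a ∧ -u (-q.2) < q.1 ∧ q.1 < u q.2} := by
    refine IsOpen.inter (isOpen_Ioo.preimage continuous_snd) (IsOpen.inter ?_ ?_)
    · exact isOpen_lt (H.hcu.comp continuous_snd.neg).neg continuous_fst
    · exact isOpen_lt continuous_fst (H.hcu.comp continuous_snd)
  have hmem : ((0 : ℝ), (0 : ℝ)) ∈
      {q : ℝ × ℝ | q.2 ∈ Ioo (-a) a ∧ -u (-q.2) < q.1 ∧ q.1 < u q.2} := by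
    refine ⟨⟨by simpa using H.ha, H.ha⟩, ?_, h0⟩
    simpa using h0
  obtain ⟨ε, hε, hball⟩ := Metric.isOpen_iff.1 hopen _ hmem
  have h1 := h (min ε π) (lt_min hε pi_pos)
  set S := {q : ℝ × ℝ | ‖q‖ < min ε π ∧ ∃ C : ℝ, ∀ n : ℕ,
      ‖fderiv ℝ ((fun p : ℝ × ℝ => (F p.1 - p.2, p.1))^[n]) q‖ ≤ C * (n + 1)} with hS
  have h2 := torus_pos (S := S) (fun q hq => hq.1.trans_le (min_le_right _ _)) h1
  refine h2.trans_le (measure_mono fun p hp => ?_)
  obtain ⟨hp1, C, hC⟩ := hp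
  refine ⟨?_, chi_zero H (C := C) hC⟩
  have : (rep p.1, rep p.2) ∈ Metric.ball ((0 : ℝ), (0 : ℝ)) ε := by
    rw [Metric.mem_ball, dist_eq_norm]
    have e : (rep p.1, rep p.2) - ((0 : ℝ), (0 : ℝ)) = (rep p.1, rep p.2) := by simp
    rw [e]
    exact hp1.trans_le (min_le_left _ _)
  exact hball this

end Pool.Agent.LibEye
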