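import Pool.Agent.LibEye.Final
import Pool.Agent.LibEye.Zero
/-! The strong form of the theorem for standard maps from `EyeHyp`: the complement of the eye has non-empty interior,
the exponent vanishes on a set of positive measure in every neighbourhood of 0. -/
set_option autoImplicit false
open Real Set MeasureTheory Filter Topology
namespace Pool.Agent.LibEye
variable {F u : ℝ → ℝ} {d : ℤ} {a b κ : ℝ}

theorem eye_int (H : EyeHyp F u d a b κ) : (interior (eye u a)ᶜ).Nonempty := by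
  have hpi : b < π := b_lt_pi H
  have hab := H.hab
  have ha := H.ha
  have hW : IsOpen {q : ℝ × ℝ | b < q.2 ∧ q.2 < π} := by
    refine IsOpen.inter ?_ ?_
    · exact isOpen_lt continuous_const continuous_snd
    · exact isOpen_lt continuous_snd continuous_const
  have hopen : IsOpenMap (fun q : ℝ × ℝ => (((q.1 : ℝ) : Circ), ((q.2 : ℝ) : Circ))) := by
    have h1 : IsOpenMap (fun x : ℝ => (x : Circ)) := QuotientAddGroup.isOpenMap_coe
    exact h1.prodMap h1
  have hO := hopen _ hW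
  refine ⟨(((0 : ℝ) : Circ), (((b + π) / 2 : ℝ) : Circ)), mem_interior.mpr ⟨_, ?_, hO, ?_⟩⟩
  · rintro _ ⟨q, ⟨h1, h2⟩, rfl⟩ hmem
    have h3 : rep ((q.2 : ℝ) : Circ) = q.2 := rep_coe ⟨by linarith, h2⟩
    have h4 : rep ((q.2 : ℝ) : Circ) ∈ Ioo (-a) a := hmem.1
    rw [h3] at h4
    linarith [h4.2]
  · exact ⟨(0, (b + π) / 2), ⟨by show b < (b + π) / 2; linarith, by show (b + π) / 2 < π; linarith⟩, rfl⟩

theorem zero_pos' (H : EyeHyp F u d a b κ)
    (h : ∀ ε > 0, 0 < volume {q : ℝ × ℝ | ‖q‖ < ε ∧ ∃ C : ℝ, ∀ n : ℕ,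
      ‖fderiv ℝ ((fun p : ℝ × ℝ => (F p.1 - p.2, p.1))^[n]) q‖ ≤ C * (n + 1)})
    (V : Set Torus) (hV : IsOpen V) (h0V : (0 : Torus) ∈ V) :
    0 < volume {p : Torus | p ∈ V ∧ chi F (rep p.1, rep p.2) = 0} := by
  have hcont : Continuous (fun q : ℝ × ℝ => (((q.1 : ℝ) : Circ), ((q.2 : ℝ) : Circ))) := by
    have h1 : Continuous (fun x : ℝ => (x : Circ)) := AddCircle.continuous_mk' (2 * π)
    exact h1.prodMap h1
  have hopen : IsOpen ((fun q : ℝ × ℝ => (((q.1 : ℝ) : Circ), ((q.2 : ℝ) : Circ))) ⁻¹' V) := hV.preimage hcont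
  obtain ⟨ε, hε, hball⟩ := Metric.isOpen_iff.1 hopen ((0 : ℝ), (0 : ℝ)) (by
    show (((0 : ℝ) : Circ), ((0 : ℝ) : Circ)) ∈ V
    rw [AddCircle.coe_zero]
    exact h0V)
  have h1 := h (min ε π) (lt_min hε pi_pos)
  set S := {q : ℝ × ℝ | ‖q‖ < min ε π ∧ ∃ C : ℝ, ∀ n : ℕ,
      ‖fderiv ℝ ((fun p : ℝ × ℝ => (F p.1 - p.2, p.1))^[n]) q‖ ≤ C * (n + 1)} with hS
  have h2 := torus_pos (S := S) (fun q hq => hq.1.trans_le (min_le_right _ _)) h1
  refine h2.trans_le (measure_mono fun p hp => ?_)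
  obtain ⟨hp1, C, hC⟩ := hp
  refine ⟨?_, chi_zero H (C := C) hC⟩
  have h3 : (rep p.1, rep p.2) ∈ Metric.ball ((0 : ℝ), (0 : ℝ)) ε := by
    rw [Metric.mem_ball, dist_eq_norm]
    have e : (rep p.1, rep p.2) - ((0 : ℝ), (0 : ℝ)) = (rep p.1, rep p.2) := by simp
    rw [e]
    exact hp1.trans_le (min_le_left _ _)
  have h4 : (((rep p.1 : ℝ) : Circ), ((rep p.2 : ℝ) : Circ)) ∈ V := hball h3
  rw [coe_rep, coe_rep] at h4
  exact h4

theorem neg_zero_pos (H : EyeHyp F u d a b κ)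
    (h : ∀ V : Set Torus, IsOpen V → (0 : Torus) ∈ V → 0 < volume {p : Torus | p ∈ V ∧ chi F (rep p.1, rep p.2) = 0})
    (V : Set Torus) (hV : IsOpen V) (h0V : (0 : Torus) ∈ V) :
    0 < volume {p : Torus | p ∈ V ∧ chi (fun x => -F x) (rep p.1, rep p.2) = 0} := by
  have h0 : sT 0 = 0 := by simp [sT]
  have hz := h (sT ⁻¹' V) (hV.preimage sT_cont) (by show sT 0 ∈ V; rw [h0]; exact h0V)
  have h2 : volume (sT ⁻¹' (toMeasurable volume
      {p : Torus | p ∈ V ∧ chi (fun x => -F x) (rep p.1, rep p.2) = 0})) =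
      volume {p : Torus | p ∈ V ∧ chi (fun x => -F x) (rep p.1, rep p.2) = 0} := by
    rw [sT_mp.measure_preimage (measurableSet_toMeasurable _ _).nullMeasurableSet,
      measure_toMeasurable]
  rw [← h2]
  refine hz.trans_le (measure_mono_ae ?_)
  filter_upwards [rep_sT] with p hr hp
  apply subset_toMeasurable
  obtain ⟨hp1, hp2⟩ := hp
  refine ⟨hp1, ?_⟩
  rw [chi_negF H, hr]
  have e : sP (sP (rep p.1, rep p.2)) = (rep p.1, rep p.2) := by simp [sP]
  rw [e]; exact hp2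

theorem neg_int (H : EyeHyp F u d a b κ) : (interior (sT ⁻¹' eye u a)ᶜ).Nonempty := by
  obtain ⟨p, hp⟩ := eye_int H
  refine ⟨sT p, mem_interior.mpr ⟨sT ⁻¹' interior (eye u a)ᶜ, ?_, isOpen_interior.preimage sT_cont, ?_⟩⟩
  · intro q hq
    have := interior_subset (show sT q ∈ interior (eye u a)ᶜ from hq)
    exact this
  · show sT (sT p) ∈ interior (eye u a)ᶜ
    rw [sT_sT]; exact hp

/-- An analytic periodic g such that the Standard map with potential E x + g(x) has an open invariant set D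
which contains the elliptic fixed point 0, the complement of D has non-empty interior, almost every point
outside D has a positive exponent, and the exponent is 0 on a set of positive measure in every neighbourhood of 0. -/
def SCoex (E : ℤ) : Prop :=
  ∃ g : ℝ → ℝ, AnalyticOnNhd ℝ g univ ∧ Function.Periodic g (2 * π) ∧
    stdMap E g 0 = 0 ∧ |2 + E + deriv g 0| < 2 ∧
    ∃ D : Set Torus, IsOpen D ∧ stdMap E g ⁻¹' D = D ∧ (0 : Torus) ∈ D ∧ (interior Dᶜ).Nonempty ∧
      (∀ᵐ p : Torus, p ∉ D → 0 < lyap E g p) ∧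
      ∀ V : Set Torus, IsOpen V → (0 : Torus) ∈ V → 0 < volume {p : Torus | p ∈ V ∧ lyap E g p = 0}

theorem scoex_of (H : EyeHyp F u d a b κ) (hA : AnalyticOnNhd ℝ F univ) (hell : |deriv F 0| < 2)
    (hz : ∀ V : Set Torus, IsOpen V → (0 : Torus) ∈ V → 0 < volume {p : Torus | p ∈ V ∧ chi F (rep p.1, rep p.2) = 0}) :
    SCoex (d - 2) := by
  have hfun : (fun x : ℝ => 2 * x + (((d - 2 : ℤ) : ℝ) * x + (F x - d * x))) = F := by
    funext x; push_cast; ring
  have hdF : DifferentiableAt ℝ F 0 := H.hF.differentiable (by norm_num) 0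
  refine ⟨fun x => F x - d * x, ?_, fun x => ?_, ?_, ?_, eye u a, eye_open H, ?_, (eye_zero H).1,
    eye_int H, ?_, ?_⟩
  · exact hA.sub (analyticOnNhd_const.mul analyticOnNhd_id)
  · simp only [H.hper x]; ring
  · rw [stdMap_eq, hfun]; exact (eye_zero H).2
  · have e : deriv (fun x : ℝ => F x - d * x) 0 = deriv F 0 - d := by
      have h1 : HasDerivAt (fun x : ℝ => F x - d * x) (deriv F 0 - d * 1) 0 :=
        hdF.hasDerivAt.sub ((hasDerivAt_id (0 : ℝ)).const_mul (d : ℝ))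
      rw [h1.deriv, mul_one]
    rw [e]; push_cast
    have e2 : (2 : ℝ) + (d - 2) + (deriv F 0 - d) = deriv F 0 := by ring
    rw [e2]; exact hell
  · rw [stdMap_eq, hfun]; exact eye_inv H
  · filter_upwards [main_b H] with p hp hpe
    rw [lyap_eq, hfun]; exact hp hpe
  · intro V hV h0
    have := hz V hV h0
    simpa only [lyap_eq, hfun] using this

theorem scoex_neg_of (H : EyeHyp F u d a b κ) (hA : AnalyticOnNhd ℝ F univ)
    (hell : |deriv F 0| < 2)
    (hz : ∀ V : Set Torus, IsOpen V → (0 : Torus) ∈ V → 0 < volume {p : Torus | p ∈ V ∧ chi F (rep p.1, rep p.2) = 0}) :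
    SCoex (-d - 2) := by
  have hfun : (fun x : ℝ => 2 * x + (((-d - 2 : ℤ) : ℝ) * x + (-F x + d * x))) =
      fun x => -F x := by
    funext x; push_cast; ring
  have hdF : DifferentiableAt ℝ F 0 := H.hF.differentiable (by norm_num) 0
  obtain ⟨n1, n2, n3, n4, -, n6, -⟩ := neg_all H
  refine ⟨fun x => -F x + d * x, ?_, fun x => ?_, ?_, ?_, sT ⁻¹' eye u a, n1, ?_, n3, neg_int H, ?_, ?_⟩
  · exact hA.neg.add (analyticOnNhd_const.mul analyticOnNhd_id)
  · simp only [H.hper x]; ring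
  · rw [stdMap_eq, hfun]; exact n4
  · have e : deriv (fun x : ℝ => -F x + d * x) 0 = -deriv F 0 + d := by
      have h1 : HasDerivAt (fun x : ℝ => -F x + d * x) (-deriv F 0 + d * 1) 0 :=
        hdF.hasDerivAt.neg.add ((hasDerivAt_id (0 : ℝ)).const_mul (d : ℝ))
      rw [h1.deriv, mul_one]
    rw [e]; push_cast
    have e2 : (2 : ℝ) + (-d - 2) + (-deriv F 0 + d) = -deriv F 0 := by ring
    rw [e2, abs_neg]; exact hell
  · rw [stdMap_eq, hfun]; exact n2
  · filter_upwards [n6] with p hp hpe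
    rw [lyap_eq, hfun]; exact hp hpe
  · intro V hV h0
    have := neg_zero_pos H hz V hV h0
    simpa only [lyap_eq, hfun] using this

/-- all integers E outside [-4, 0], if for every N ≥ 1 there is a map with `EyeHyp` of degree N + 2 -/
theorem scoex_all
    (h : ∀ N : ℕ, 1 ≤ N → ∃ (F u : ℝ → ℝ) (a b κ : ℝ), EyeHyp F u ((N : ℤ) + 2) a b κ ∧
      AnalyticOnNhd ℝ F univ ∧ |deriv F 0| < 2 ∧
      ∀ ε > 0, 0 < volume {q : ℝ × ℝ | ‖q‖ < ε ∧ ∃ C : ℝ, ∀ n : ℕ,
        ‖fderiv ℝ ((fun p : ℝ × ℝ => (F p.1 - p.2, p.1))^[n]) q‖ ≤ C * (n + 1)})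
    (E : ℤ) (hE : 0 < E ∨ E < -4) : SCoex E := by
  rcases hE with hE | hE
  · obtain ⟨F, u, a, b, κ, H, hA, he, hz⟩ := h E.toNat (by omega)
    have := scoex_of H hA he (zero_pos' H hz)
    have e : ((E.toNat : ℤ) + 2) - 2 = E := by omega
    rwa [e] at this
  · obtain ⟨F, u, a, b, κ, H, hA, he, hz⟩ := h (-E - 4).toNat (by omega)
    have := scoex_neg_of H hA he (zero_pos' H hz)
    have e : -(((-E - 4).toNat : ℤ) + 2) - 2 = E := by omega
    rwa [e] at this

end Pool.Agent.LibEye
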